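import Pool.Agent.Helper94.FB.Codazzi

/-!
# FS-02 NonDeg: linear functions and linear functions of the normal do not vanish on pieces of the surface (no symmetry is assumed)

* `mat_zero` (pure algebra): let `e = c × N` (`e_0 = c_1 N_2 - c_2 N_1` and so on). Every vector `v` is a combination of `c, N, e` (they are orthogonal and nonzero), so `M v = (v . e) M e / |e| ^ 2`; `M e` is orthogonal to `c` and to `N` (symmetry), so
  `M e = μ e`; the trace of `M` is `μ`, so `μ = 0`. Or: explicit polynomial identities, for instance `|c| ^ 2 M_ij = ...`.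
* `normal_dir`: let `z ∈ inn F`, `f y = ∑ i, c i * pd i F y` (smooth, `0` on `inn F`). `grad_par` (with `V = univ`): `pd k f z = b * pd k F z` for all `k`; `pd k f z = ∑ i, c i * pd k (pd i F) z`. Contract with `pd k F z`: the left side is
  `∑ i, c i ∑ k, pd k F * pd k (pd i F) = 0` (`eik1`, `pd_comm`), the right side is `b` (`grad_sq`), so `b = 0`. Now `mat_zero` with `M i j = pd i (pd j F) z`, `N j = pd j F z` (`tr_zero`, `eik1`, `pd_comm`): `M = 0`, so `normA F z = 0`.
  For `z ∈ surf F`: `surf_subset` and continuity of `normA F`.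
* `flat_dir`: the idea is `flat_piece` for an arbitrary direction. On `inn F ∩ V`: `grad_par` for `y ↦ ∑ i, c i * y i` (at every point of `inn F ∩ V`): `c k = a * pd k F y` for all `k`, with `a ≠ 0` depending on `y` (because `c ≠ 0`). So for all `j, k` the smooth
  function `c j * pd k F - c k * pd j F` vanishes on `inn F ∩ V`; `grad_par` at `z` and contraction with `∇F(z)` as above show that its gradient at `z` is `0`: `c j * M i k = c k * M i j` at `z`, `M i j = pd i (pd j F) z`. Multiply by `c j` and sum over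
  `j`: `|c| ^ 2 M i k = c k ∑ j, c j M i j = c k a ∑ j, pd j F M i j = 0` (`eik1`). So `normA F z = 0`.
-/

set_option autoImplicit false

open MeasureTheory Filter
open scoped ContDiff Topology

namespace Pool.Agent.Helper78.FB

variable {F : E → ℝ}

theorem mat_zero {M : Fin 3 → Fin 3 → ℝ} {c N : Fin 3 → ℝ} (hs : ∀ i j, M i j = M j i) (htr : ∑ i, M i i = 0)
    (hN : ∑ i, N i ^ 2 = 1) (hc : c ≠ 0) (hcN : ∑ i, c i * N i = 0) (hMc : ∀ i, ∑ j, M i j * c j = 0)
    (hMN : ∀ i, ∑ j, M i j * N j = 0) (i j : Fin 3) : M i j = 0 := by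
  obtain ⟨C, hC⟩ : ∃ C, C = ∑ k, c k ^ 2 := ⟨_, rfl⟩
  have hCpos : 0 < C := by
    rw [hC]
    obtain ⟨k, hk⟩ := Function.ne_iff.1 hc
    exact Finset.sum_pos' (fun k _ => sq_nonneg (c k)) ⟨k, Finset.mem_univ k, by
      have : c k ≠ 0 := hk
      positivity⟩
  obtain ⟨e, he⟩ : ∃ e : Fin 3 → ℝ,
      e = ![c 1 * N 2 - c 2 * N 1, c 2 * N 0 - c 0 * N 2, c 0 * N 1 - c 1 * N 0] := ⟨_, rfl⟩
  have e0 : e 0 = c 1 * N 2 - c 2 * N 1 := by rw [he]; rfl
  have e1 : e 1 = c 2 * N 0 - c 0 * N 2 := by rw [he]; rfl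
  have e2 : e 2 = c 0 * N 1 - c 1 * N 0 := by rw [he]; rfl
  have hN' : N 0 ^ 2 + N 1 ^ 2 + N 2 ^ 2 = 1 := by rw [← hN, Fin.sum_univ_three]
  have hcN' : c 0 * N 0 + c 1 * N 1 + c 2 * N 2 = 0 := by rw [← hcN, Fin.sum_univ_three]
  have hC' : C = c 0 ^ 2 + c 1 ^ 2 + c 2 ^ 2 := by rw [hC, Fin.sum_univ_three]
  have key : ∀ k j, (if k = j then C else 0) = c k * c j + C * (N k * N j) + e k * e j := by
    intro k j
    have hdiag : ∀ a b : Fin 3, ∀ s : ℝ, (s = 1 ∨ s = 0) → True := fun _ _ _ _ => trivial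
    fin_cases k <;> fin_cases j
    · simp only [Fin.zero_eta, if_true, e0, hC']
      linear_combination (c 0 * c 0 - (c 0 ^ 2 + c 1 ^ 2 + c 2 ^ 2)) * hN' +
        ((c 0 * N 0 + c 1 * N 1 + c 2 * N 2) - c 0 * N 0 - N 0 * c 0) * hcN'
    · simp only [Fin.zero_eta, Fin.mk_one, Fin.isValue, zero_ne_one, if_false, e0, e1, hC']
      linear_combination (c 0 * c 1) * hN' + (- c 0 * N 1 - N 0 * c 1) * hcN'
    · simp only [Fin.zero_eta, Fin.reduceFinMk, Fin.isValue, Fin.reduceEq, if_false, e0, e2, hC']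
      linear_combination (c 0 * c 2) * hN' + (- c 0 * N 2 - N 0 * c 2) * hcN'
    · simp only [Fin.zero_eta, Fin.mk_one, Fin.isValue, one_ne_zero, if_false, e0, e1, hC']
      linear_combination (c 0 * c 1) * hN' + (- c 0 * N 1 - N 0 * c 1) * hcN'
    · simp only [Fin.mk_one, if_true, e1, hC']
      linear_combination (c 1 * c 1 - (c 0 ^ 2 + c 1 ^ 2 + c 2 ^ 2)) * hN' +
        ((c 0 * N 0 + c 1 * N 1 + c 2 * N 2) - c 1 * N 1 - N 1 * c 1) * hcN'
    · simp only [Fin.mk_one, Fin.reduceFinMk, Fin.isValue, Fin.reduceEq, if_false, e1, e2, hC']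
      linear_combination (c 1 * c 2) * hN' + (- c 1 * N 2 - N 1 * c 2) * hcN'
    · simp only [Fin.zero_eta, Fin.reduceFinMk, Fin.isValue, Fin.reduceEq, if_false, e0, e2, hC']
      linear_combination (c 0 * c 2) * hN' + (- c 0 * N 2 - N 0 * c 2) * hcN'
    · simp only [Fin.mk_one, Fin.reduceFinMk, Fin.isValue, Fin.reduceEq, if_false, e1, e2, hC']
      linear_combination (c 1 * c 2) * hN' + (- c 1 * N 2 - N 1 * c 2) * hcN'
    · simp only [Fin.reduceFinMk, if_true, e2, hC']
      linear_combination (c 2 * c 2 - (c 0 ^ 2 + c 1 ^ 2 + c 2 ^ 2)) * hN' +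
        ((c 0 * N 0 + c 1 * N 1 + c 2 * N 2) - c 2 * N 2 - N 2 * c 2) * hcN'
  have hCM : ∀ i j, C * M i j = (∑ k, M i k * e k) * e j := by
    intro i j
    have h1 : ∑ k, M i k * (if k = j then C else 0) = C * M i j := by
      rw [Finset.sum_eq_single j (fun b _ hb => by rw [if_neg hb, mul_zero])
        (fun hb => absurd (Finset.mem_univ j) hb), if_pos rfl, mul_comm]
    have h2 : ∀ k, M i k * (if k = j then C else 0) =
        c j * (M i k * c k) + C * N j * (M i k * N k) + e j * (M i k * e k) := by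
      intro k
      rw [key k j]
      ring
    rw [← h1, Finset.sum_congr rfl fun k _ => h2 k, Finset.sum_add_distrib, Finset.sum_add_distrib,
      ← Finset.mul_sum, ← Finset.mul_sum, ← Finset.mul_sum, hMc i, hMN i]
    ring
  have htr2 : ∑ k, (∑ l, M k l * e l) * e k = 0 := by
    rw [← Finset.sum_congr rfl fun k _ => hCM k k, ← Finset.mul_sum, htr, mul_zero]
  have hMe : ∀ i, ∑ k, M i k * e k = 0 := by
    intro i
    have h1 : C * ∑ k, M i k * e k = e i * ∑ k, (∑ l, M k l * e l) * e k := by
      rw [Finset.mul_sum, Finset.mul_sum]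
      refine Finset.sum_congr rfl fun k _ => ?_
      rw [← mul_assoc, hs i k, hCM k i]
      ring
    rw [htr2, mul_zero] at h1
    exact (mul_eq_zero.1 h1).resolve_left hCpos.ne'
  have h2 := hCM i j
  rw [hMe i, zero_mul] at h2
  exact (mul_eq_zero.1 h2).resolve_left hCpos.ne'

private theorem nd_pos {c : Fin 3 → ℝ} (hc : c ≠ 0) : 0 < ∑ k, c k ^ 2 := by
  obtain ⟨k, hk⟩ := Function.ne_iff.1 hc
  exact Finset.sum_pos' (fun k _ => sq_nonneg (c k)) ⟨k, Finset.mem_univ k, by
    have : c k ≠ 0 := hk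
    positivity⟩

private theorem nd_surf {y : E} (hy : y ∈ inn F) : y ∈ surf F := ⟨hy.1.le, hy.2⟩

private theorem nd_lin (c : Fin 3 → ℝ) (j : Fin 3) (p : E) :
    pd j (fun y : E => ∑ k, c k * y k) p = c j := by
  rw [pd_sum j Finset.univ (fun k (y : E) => c k * y k)
    (fun k _ => contDiff_const.mul (contDiff_coord k))]
  have h1 : ∀ k : Fin 3, pd j (fun y : E => c k * y k) p = c k * (if j = k then 1 else 0) := by
    intro k
    rw [pd_const_mul j (c k) (contDiff_coord k), pd_coord]
  show ∑ k, pd j (fun y : E => c k * y k) p = c j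
  rw [Finset.sum_congr rfl fun k _ => h1 k, Finset.sum_eq_single j
    (fun b _ hb => by rw [if_neg (Ne.symm hb), mul_zero])
    (fun hb => absurd (Finset.mem_univ j) hb), if_pos rfl, mul_one]

private theorem nd_eik (h : FBMS F) {y : E} (hy : y ∈ surf F) (j : Fin 3) :
    ∑ i, pd i F y * pd i (pd j F) y = 0 := by
  rw [← eik1 h hy j]
  refine Finset.sum_congr rfl fun i _ => ?_
  rw [pd_comm i j h.smooth]

theorem flat_dir (h : FBMS F) {c : Fin 3 → ℝ} (hc : c ≠ 0) {z : E} (hz : z ∈ inn F) (V : Set E) (hV : IsOpen V)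
    (hzV : z ∈ V) (h0 : ∀ y ∈ inn F, y ∈ V → ∑ i, c i * y i = 0) : normA F z = 0 := by
  have hCpos := nd_pos hc
  have hf : ContDiff ℝ ∞ fun y : E => ∑ i, c i * y i :=
    ContDiff.sum fun i _ => contDiff_const.mul (contDiff_coord i)
  have hA : ∀ y ∈ inn F, y ∈ V → ∃ a : ℝ, ∀ k, c k = a * pd k F y := by
    intro y hy hyV
    obtain ⟨a, ha⟩ := grad_par h hf hy V hV hyV h0
    exact ⟨a, fun k => by rw [← ha k, nd_lin]⟩
  have hB : ∀ i j k, c j * pd i (pd k F) z = c k * pd i (pd j F) z := by
    intro i j k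
    have hg : ContDiff ℝ ∞ fun y : E => c j * pd k F y - c k * pd j F y :=
      (contDiff_const.mul (contDiff_pd k h.smooth)).sub (contDiff_const.mul (contDiff_pd j h.smooth))
    obtain ⟨b, hb⟩ := grad_par h hg hz V hV hzV (fun y hy hyV => by
      obtain ⟨a, ha⟩ := hA y hy hyV
      rw [ha j, ha k]
      ring)
    have hb' : ∀ i, c j * pd i (pd k F) z - c k * pd i (pd j F) z = b * pd i F z := by
      intro i
      rw [← hb i, pd_sub i (contDiff_const.mul (contDiff_pd k h.smooth))
        (contDiff_const.mul (contDiff_pd j h.smooth)), pd_const_mul i (c j) (contDiff_pd k h.smooth),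
        pd_const_mul i (c k) (contDiff_pd j h.smooth)]
    have hb0 : b = 0 := by
      have h1 : ∑ i, pd i F z * (c j * pd i (pd k F) z - c k * pd i (pd j F) z) =
          c j * ∑ i, pd i F z * pd i (pd k F) z - c k * ∑ i, pd i F z * pd i (pd j F) z := by
        rw [Finset.mul_sum, Finset.mul_sum, ← Finset.sum_sub_distrib]
        exact Finset.sum_congr rfl fun i _ => by ring
      have h2 : ∑ i, pd i F z * (c j * pd i (pd k F) z - c k * pd i (pd j F) z) =
          b * ∑ i, pd i F z ^ 2 := by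
        rw [Finset.mul_sum]
        refine Finset.sum_congr rfl fun i _ => ?_
        rw [hb' i]
        ring
      rw [h1, nd_eik h (nd_surf hz) k, nd_eik h (nd_surf hz) j, grad_sq h (nd_surf hz)] at h2
      linarith
    have h3 := hb' i
    rw [hb0, zero_mul] at h3
    linarith
  obtain ⟨a, ha⟩ := hA z hz hzV
  have hM : ∀ i k, pd i (pd k F) z = 0 := by
    intro i k
    have h1 : (∑ j, c j ^ 2) * pd i (pd k F) z = 0 := by
      have h2 : ∀ j, c j ^ 2 * pd i (pd k F) z = c k * a * (pd j F z * pd i (pd j F) z) := by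
        intro j
        have h3 := hB i j k
        calc c j ^ 2 * pd i (pd k F) z = c j * (c j * pd i (pd k F) z) := by ring
          _ = c j * (c k * pd i (pd j F) z) := by rw [h3]
          _ = c k * c j * pd i (pd j F) z := by ring
          _ = c k * (a * pd j F z) * pd i (pd j F) z := by rw [ha j]
          _ = c k * a * (pd j F z * pd i (pd j F) z) := by ring
      rw [Finset.sum_mul, Finset.sum_congr rfl fun j _ => h2 j, ← Finset.mul_sum,
        eik1 h (nd_surf hz) i, mul_zero]
    exact (mul_eq_zero.1 h1).resolve_left hCpos.ne'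
  unfold normA
  refine Finset.sum_eq_zero fun i _ => Finset.sum_eq_zero fun j _ => ?_
  rw [hM i j]
  norm_num

theorem normal_dir (h : FBMS F) {c : Fin 3 → ℝ} (hc : c ≠ 0) (h0 : ∀ y ∈ surf F, ∑ i, c i * pd i F y = 0) :
    ∀ y ∈ surf F, normA F y = 0 := by
  have hinn : ∀ z ∈ inn F, normA F z = 0 := by
    intro z hz
    have hzs := nd_surf hz
    have hf : ContDiff ℝ ∞ fun y : E => ∑ i, c i * pd i F y :=
      ContDiff.sum fun i _ => contDiff_const.mul (contDiff_pd i h.smooth)
    obtain ⟨b, hb⟩ := grad_par h hf hz Set.univ isOpen_univ trivial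
      (fun y hy _ => h0 y (nd_surf hy))
    have hb' : ∀ k, ∑ i, c i * pd k (pd i F) z = b * pd k F z := by
      intro k
      rw [← hb k, pd_sum k Finset.univ (fun i (y : E) => c i * pd i F y)
        (fun i _ => contDiff_const.mul (contDiff_pd i h.smooth))]
      refine Finset.sum_congr rfl fun i _ => ?_
      rw [pd_const_mul k (c i) (contDiff_pd i h.smooth)]
    have hb0 : b = 0 := by
      have h1 : ∑ k, pd k F z * ∑ i, c i * pd k (pd i F) z = b := by
        have h2 : ∀ k, pd k F z * ∑ i, c i * pd k (pd i F) z = b * pd k F z ^ 2 := by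
          intro k
          rw [hb' k]
          ring
        rw [Finset.sum_congr rfl fun k _ => h2 k, ← Finset.mul_sum, grad_sq h hzs, mul_one]
      rw [← h1]
      have h3 : ∀ k, pd k F z * ∑ i, c i * pd k (pd i F) z =
          ∑ i, c i * (pd k F z * pd k (pd i F) z) := by
        intro k
        rw [Finset.mul_sum]
        exact Finset.sum_congr rfl fun i _ => by ring
      rw [Finset.sum_congr rfl fun k _ => h3 k, Finset.sum_comm]
      refine Finset.sum_eq_zero fun i _ => ?_
      rw [← Finset.mul_sum, nd_eik h hzs i, mul_zero]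
    have hM : ∀ i j, pd i (pd j F) z = 0 := by
      intro i j
      refine mat_zero (M := fun i j => pd i (pd j F) z) (c := c) (N := fun j => pd j F z)
        (fun i j => by
          show pd i (pd j F) z = pd j (pd i F) z
          rw [pd_comm i j h.smooth]) (tr_zero h hzs) (grad_sq h hzs) hc (h0 z hzs)
        (fun i => ?_) (fun i => ?_) i j
      · have h4 := hb' i
        rw [hb0, zero_mul] at h4
        rw [← h4]
        exact Finset.sum_congr rfl fun j _ => mul_comm _ _
      · rw [← eik1 h hzs i]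
        exact Finset.sum_congr rfl fun j _ => mul_comm _ _
    unfold normA
    refine Finset.sum_eq_zero fun i _ => Finset.sum_eq_zero fun j _ => ?_
    rw [hM i j]
    norm_num
  have hcl : IsClosed {y : E | normA F y = 0} := by
    refine isClosed_eq ?_ continuous_const
    unfold normA
    exact continuous_finsetSum _ fun i _ => continuous_finsetSum _ fun j _ =>
      ((contDiff_pd i (contDiff_pd j h.smooth)).continuous.pow 2)
  exact fun y hy => (closure_minimal (fun w hw => hinn w hw) hcl) (surf_subset h hy)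

end Pool.Agent.Helper78.FB
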