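import Pool.Agent.Helper94.FB.QForm
import Pool.Agent.Helper94.FB.Curl

/-!
# FS-01 Gram: the second variation on the components of the Gauss map (no symmetry is assumed)

Write `N_m = pd m F`, `T = crs F y = y × N`.
* `len_coord`: `h.firstVar` with the constant field `X = e_i` (`X j y = if j = i then 1 else 0`): all `pd` vanish (`pd_const`), so `divS F X = 0`; the right side is `len F (y_i)`.
* `len_one`: `h.firstVar` with `X j y = y j`: `divS F X = 3 - ∑ i, pd i F ^ 2 = 2` on `surf F` (`pd_coord`, `grad_sq`), `∑ y_i * y_i = 1` on `bdry F` (`norm_sq`).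
* `len_coord_mul`: `h.firstVar` with `X i y = if i = n then y m else 0`: `divS F X = δ_mn - N_m N_n` (`pd_coord`), the right side is `len F (y_m * y_n)`.
* `tan_crs`: on `bdry F` the derivative of `T_n` in the direction `T` is `- y_n + kap * N_n`. For `n = 0`: `crs F y 0 = ww F 1 2 y = y_1 F_2 - y_2 F_1`; with `pd_ww`: `∑ k, T_k pd k (ww F 1 2) = T_1 F_2 - T_2 F_1 + y_1 ∑ k, T_k F_k2 - y_2 ∑ k, T_k F_k1`
  and `∑ k, T_k F_kb = - kap T_b` by `bdryA` (`∑ T_k y_k = 0`: `crs_dot_pos`, `∑ T_k ^ 2 = 1`: from `frame` with `i = j`, summed). Finally `T × N = - y` and `y × T = - N` on `bdry F` (`|y| = |N| = 1`, `y . N = 0`: `orth`, `grad_sq`). See the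
  private lemmas `len_case`, `len_all` in `FB/KapNe.lean` (the case `kap = 0`).
* `Q_pd_pd`: by `Q_pd`, `Q F N_m N_n = len ((kap y_m - N_m) N_n)`. `curl` with `g y = y m * crs F y n` (smooth: `contDiff_coord`, `contDiff_crs`): `∑ k, T_k pd k g = T_m T_n + y_m (- y_n + kap N_n)` on `bdry F`, so `len (kap y_m N_n) = len (y_m y_n - T_m T_n)`.
  With `frame`: `Q F N_m N_n = len (y_m y_n - T_m T_n - N_m N_n) = len (2 y_m y_n - δ_mn)`. By `len_coord_mul`, `len_one` this is `2 area (δ_mn - N_m N_n) - 2 δ_mn area 1 = - 2 area (N_m N_n)`.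
-/

set_option autoImplicit false

open MeasureTheory Filter
open scoped ContDiff Topology

namespace Pool.Agent.Helper78.FB

variable {F : E → ℝ}

private theorem bdry_surf {y : E} (hy : y ∈ bdry F) : y ∈ surf F := ⟨le_of_eq hy.1, hy.2⟩

private theorem pos_sq {y : E} (hy : y ∈ bdry F) : ∑ k, y k ^ 2 = 1 := by
  rw [← norm_sq, hy.1, one_pow]

theorem len_coord (h : FBMS F) (i : Fin 3) : len F (fun y => y i) = 0 := by
  have key := h.firstVar (fun j _ => if j = i then (1 : ℝ) else 0) fun j => contDiff_const
  have h1 : ∀ y ∈ bdry F, ∑ j, (if j = i then (1 : ℝ) else 0) * y j = y i := by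
    intro y _
    simp
  have h2 : ∀ y ∈ surf F, divS F (fun j (_ : E) => if j = i then (1 : ℝ) else 0) y = (fun _ => (0 : ℝ)) y := by
    intro y _
    unfold divS
    simp only [pd_const]
    simp
  rw [area_congr h2 h, len_congr h1 h] at key
  rw [← key]
  simp [area]

theorem len_one (h : FBMS F) : len F (fun _ => 1) = 2 * area F (fun _ => 1) := by
  have key := h.firstVar (fun j y => y j) fun j => contDiff_coord j
  have h1 : ∀ y ∈ bdry F, ∑ j, y j * y j = 1 := by
    intro y hy
    have := pos_sq hy
    simpa only [sq] using this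
  have h2 : ∀ y ∈ surf F, divS F (fun j (y : E) => y j) y = 2 * 1 := by
    intro y hy
    have h3 := grad_sq h hy
    unfold divS
    simp only [pd_coord]
    simp only [mul_ite, mul_one, mul_zero, Finset.sum_ite_eq', Finset.mem_univ, if_true]
    simp only [Fin.sum_univ_three] at h3 ⊢
    linarith
  rw [area_congr h2 h, len_congr h1 h, area_const_mul] at key
  exact key.symm

theorem len_coord_mul (h : FBMS F) (m n : Fin 3) :
    len F (fun y => y m * y n) = area F (fun y => (if m = n then 1 else 0) - pd m F y * pd n F y) := by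
  have key := h.firstVar (fun i y => (if i = n then (1 : ℝ) else 0) * y m)
    fun i => contDiff_const.mul (contDiff_coord m)
  have h1 : ∀ y ∈ bdry F, ∑ i, (if i = n then (1 : ℝ) else 0) * y m * y i = y m * y n := by
    intro y _
    simp only [ite_mul, one_mul, zero_mul, Finset.sum_ite_eq', Finset.mem_univ, if_true]
  have h2 : ∀ y ∈ surf F, divS F (fun i (y : E) => (if i = n then (1 : ℝ) else 0) * y m) y =
      (if m = n then 1 else 0) - pd m F y * pd n F y := by
    intro y _
    have h3 : ∀ i j, pd j (fun y : E => (if i = n then (1 : ℝ) else 0) * y m) y =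
        (if i = n then (1 : ℝ) else 0) * (if j = m then 1 else 0) := by
      intro i j
      rw [pd_const_mul j _ (contDiff_coord m), pd_coord]
    unfold divS
    simp only [h3]
    have h4 : ∑ i : Fin 3, (if i = n then (1 : ℝ) else 0) * (if i = m then (1 : ℝ) else 0) =
        if m = n then 1 else 0 := by
      simp only [ite_mul, one_mul, zero_mul, Finset.sum_ite_eq', Finset.mem_univ, if_true]
      simp only [eq_comm]
    have h5 : ∑ i : Fin 3, ∑ j : Fin 3, pd i F y * pd j F y *
        ((if i = n then (1 : ℝ) else 0) * (if j = m then (1 : ℝ) else 0)) = pd m F y * pd n F y := by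
      have h6 : ∀ i j : Fin 3, pd i F y * pd j F y *
          ((if i = n then (1 : ℝ) else 0) * (if j = m then (1 : ℝ) else 0)) =
          if i = n then (if j = m then pd i F y * pd j F y else 0) else 0 := by
        intro i j
        split_ifs <;> ring
      simp only [h6]
      rw [Finset.sum_eq_single n, Finset.sum_eq_single m]
      · rw [if_pos rfl, if_pos rfl, mul_comm]
      · intro b _ hb
        rw [if_pos rfl, if_neg hb]
      · intro hm
        exact absurd (Finset.mem_univ _) hm
      · intro b _ hb
        simp [hb]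
      · intro hm
        exact absurd (Finset.mem_univ _) hm
    rw [h4, h5]
  rw [area_congr h2 h, len_congr h1 h] at key
  exact key.symm

private theorem crs_sumsq (h : FBMS F) {y : E} (hy : y ∈ bdry F) :
    crs F y 0 ^ 2 + crs F y 1 ^ 2 + crs F y 2 ^ 2 = 1 := by
  have h0 := frame h hy 0 0
  have h1 := frame h hy 1 1
  have h2 := frame h hy 2 2
  have h3 := pos_sq hy
  have h4 := grad_sq h (bdry_surf hy)
  rw [Fin.sum_univ_three] at h3 h4
  rw [if_pos rfl] at h0 h1 h2
  linear_combination h0 + h1 + h2 - h3 - h4

/-- The derivative of the normal in the direction `T`. -/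
private theorem tan_grad (h : FBMS F) {y : E} (hy : y ∈ bdry F) (b : Fin 3) :
    ∑ k, crs F y k * pd k (pd b F) y = -(kap F y * crs F y b) := by
  have h1 := crs_dot_pos (F := F) y
  have h2 := crs_sumsq h hy
  have h3 : ∀ k, crs F y k * pd k (pd b F) y =
      kap F y * (y b * (crs F y k * y k) - crs F y b * crs F y k ^ 2) := by
    intro k
    rw [bdryA h hy k b]
    ring
  rw [Finset.sum_congr rfl fun k _ => h3 k]
  rw [Fin.sum_univ_three] at h1 ⊢
  linear_combination kap F y * y b * h1 - kap F y * crs F y b * h2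

private theorem tan_ww (h : FBMS F) {y : E} (hy : y ∈ bdry F) (a b : Fin 3) :
    ∑ k, crs F y k * pd k (ww F a b) y =
      crs F y a * pd b F y - crs F y b * pd a F y - kap F y * (y a * crs F y b - y b * crs F y a) := by
  have h1 := tan_grad h hy a
  have h2 := tan_grad h hy b
  have h3 : ∀ k, crs F y k * pd k (ww F a b) y =
      (if k = a then crs F y k * pd b F y else 0) - (if k = b then crs F y k * pd a F y else 0) +
        (y a * (crs F y k * pd k (pd b F) y) - y b * (crs F y k * pd k (pd a F) y)) := by
    intro k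
    rw [pd_ww h.smooth a b k]
    beta_reduce
    split_ifs <;> ring
  rw [Finset.sum_congr rfl fun k _ => h3 k, Finset.sum_add_distrib, Finset.sum_sub_distrib,
    Finset.sum_sub_distrib, Finset.sum_ite_eq', Finset.sum_ite_eq', if_pos (Finset.mem_univ a),
    if_pos (Finset.mem_univ b), ← Finset.mul_sum, ← Finset.mul_sum, h1, h2]
  ring

theorem tan_crs (h : FBMS F) {y : E} (hy : y ∈ bdry F) (n : Fin 3) :
    ∑ k, crs F y k * pd k (fun y => crs F y n) y = -y n + kap F y * pd n F y := by
  have hp := pos_sq hy
  have hg := grad_sq h (bdry_surf hy)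
  have ho : uu F y = 0 := orth h hy
  unfold uu at ho
  rw [Fin.sum_univ_three] at hp hg ho
  have c0 : crs F y 0 = y 1 * pd 2 F y - y 2 * pd 1 F y := rfl
  have c1 : crs F y 1 = y 2 * pd 0 F y - y 0 * pd 2 F y := rfl
  have c2 : crs F y 2 = y 0 * pd 1 F y - y 1 * pd 0 F y := rfl
  fin_cases n
  · have h1 := tan_ww h hy 1 2
    show ∑ k, crs F y k * pd k (ww F 1 2) y = -y 0 + kap F y * pd 0 F y
    rw [h1, c1, c2]
    linear_combination (pd 0 F y) * ho - y 0 * hg - kap F y * (y 0 * ho - pd 0 F y * hp)
  · have h1 := tan_ww h hy 2 0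
    show ∑ k, crs F y k * pd k (ww F 2 0) y = -y 1 + kap F y * pd 1 F y
    rw [h1, c0, c2]
    linear_combination (pd 1 F y) * ho - y 1 * hg - kap F y * (y 1 * ho - pd 1 F y * hp)
  · have h1 := tan_ww h hy 0 1
    show ∑ k, crs F y k * pd k (ww F 0 1) y = -y 2 + kap F y * pd 2 F y
    rw [h1, c0, c1]
    linear_combination (pd 2 F y) * ho - y 2 * hg - kap F y * (y 2 * ho - pd 2 F y * hp)

theorem Q_pd_pd (h : FBMS F) (m n : Fin 3) :
    Q F (pd m F) (pd n F) = -(2 * area F (fun y => pd m F y * pd n F y)) := by
  have hF := h.smooth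
  have hpm := contDiff_pd m hF
  have hpn := contDiff_pd n hF
  rw [Q_pd h m hpn]
  have h1 := curl h (g := fun y => y m * crs F y n) ((contDiff_coord m).mul (contDiff_crs hF n))
  have h2 : ∀ y ∈ bdry F, ∑ k, crs F y k * pd k (fun y => y m * crs F y n) y =
      (kap F y * y m - pd m F y) * pd n F y - (2 * (y m * y n) - (if m = n then 1 else 0)) := by
    intro y hy
    have h3 := tan_crs h hy n
    have h4 := frame h hy m n
    have h5 : ∀ k, crs F y k * pd k (fun y => y m * crs F y n) y =
        (if k = m then crs F y k * crs F y n else 0) + y m * (crs F y k * pd k (fun y => crs F y n) y) := by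
      intro k
      rw [pd_mul k (contDiff_coord m) (contDiff_crs hF n), pd_coord]
      beta_reduce
      split_ifs <;> ring
    rw [Finset.sum_congr rfl fun k _ => h5 k, Finset.sum_add_distrib, Finset.sum_ite_eq',
      if_pos (Finset.mem_univ m), ← Finset.mul_sum, h3]
    rw [← h4]
    ring
  rw [len_congr h2 h] at h1
  have hc1 : Continuous fun y : E => (kap F y * y m - pd m F y) * pd n F y :=
    ((((contDiff_kap hF).mul (contDiff_coord m)).sub hpm).mul hpn).continuous
  have hc2 : Continuous fun y : E => y m * y n :=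
    ((contDiff_coord m).mul (contDiff_coord n)).continuous
  have hc3 : Continuous fun y : E => pd m F y * pd n F y := (hpm.mul hpn).continuous
  have hc4 : Continuous fun y : E => 2 * (y m * y n) := continuous_const.mul hc2
  have hc5 : Continuous fun _ : E => if m = n then (1 : ℝ) else 0 := continuous_const
  have hc6 : Continuous fun y : E => 2 * (y m * y n) - if m = n then (1 : ℝ) else 0 := hc4.sub hc5
  rw [len_sub h hc1.continuousOn hc6.continuousOn,
    len_sub h hc4.continuousOn hc5.continuousOn, len_const_mul,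
    len_coord_mul h m n, area_sub h hc5.continuousOn hc3.continuousOn] at h1
  have h6 : len F (fun _ => if m = n then (1 : ℝ) else 0) = (if m = n then (1 : ℝ) else 0) * len F (fun _ => 1) := by
    rw [← len_const_mul]
    simp only [mul_one]
  have h7 : area F (fun _ => if m = n then (1 : ℝ) else 0) = (if m = n then (1 : ℝ) else 0) * area F (fun _ => 1) := by
    rw [← area_const_mul]
    simp only [mul_one]
  rw [h6, h7, len_one h] at h1
  linarith

end Pool.Agent.Helper78.FB
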