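import Pool.Agent.Helper94.FS.NdSign
import Pool.Agent.Helper94.FB.BarFn
import Pool.Agent.Helper94.FB.QForm

/-!
# FS-11 Hopf: if the support function is positive in the interior then `kap < 0` on the whole boundary

Let `p ∈ bdry F`, `u = uu F` (`u ≥ 0` on `surf F`: `0` on `bdry F` by `orth`, and `> 0` on `inn F`). Put `r = 1 / 4`, `a = (1 - r) • p`, `κ = 2 / r ^ 2`, `b = barr κ a r`. Note `‖p - a‖ = r`, and for `‖y‖ = 1`: `‖y - a‖ ≥ r`, so `b ≤ 0` on `bdry F`;
if `‖y‖ ≤ 1`, `‖y - a‖ ≤ r` and `y ≠ p` then `‖y‖ < 1` (`‖y‖ ≤ ‖y - a‖ + ‖a‖`, with equality only for `y = p`: strict convexity of the norm, or square everything). `b ≤ 1`, `b p = 0`, `b y ≤ 0` iff `‖y - a‖ ≥ r`.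
(1) By `lap_barr`, `lap F b y = exp(..) * (4 κ ^ 2 (|y - a| ^ 2 - (N . (y - a)) ^ 2) - 4 κ)`. At `y = p`: `|p - a| ^ 2 = r ^ 2` and `N . (p - a) = r * u p = 0`. By continuity there is `δ > 0` with `|y - a| ^ 2 - (N . (y - a)) ^ 2 ≥ r ^ 2 / 2` for
`y ∈ ball p δ`, so `lap F b ≥ 0` on `surf F ∩ ball p δ` (`4 κ ^ 2 r ^ 2 / 2 = 4 κ`).
(2) `K = {y ∈ surf F | δ / 4 ≤ ‖y - p‖ ≤ δ / 2, ‖y - a‖ ≤ r}` is compact (`isCompact_surf`) and contained in `inn F`, so `u ≥ m` on `K` for some `m > 0` (if `K = ∅` take `m = 1`). Let `η = m / 2`, `f = η b - u`. On `K`: `f ≤ η - m < 0`. At points of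
`surf F` with `‖y - a‖ > r`: `b < 0`, so `f < 0`. So `f < 0` on `surf F ∩ {δ / 4 ≤ ‖y - p‖ ≤ δ / 2}`.
(3) Let `χ` be smooth, `≥ 0`, `χ = 1` on a neighbourhood of `closedBall p (δ / 4)`, `χ = 0` outside `ball p (δ / 2)` (`ContDiffBump` with `rIn` slightly larger: replace `δ / 4` by `δ / 3`), `ψ = expNegInvGlue` (smooth, `0` on `(-∞, 0]`, positive and
monotone on `(0, ∞)`, so `deriv ψ ≥ 0`), `g = χ * ψ(f)` (smooth). `green` for `f, g`: `area (g * lap f + tang f g) = len (g * nd f) = 0`, because on `bdry F` `f = η b ≤ 0`, so `g = 0`. On `surf F`: `g * lap f ≥ 0` (`g ≠ 0` only in `ball p δ`, and there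
`lap f = η lap b + normA u ≥ 0`, `lap_uu`), `tang f g = χ ψ'(f) tang f f + ψ(f) tang f χ` (`tang_comp`-like, `pd_mul`, `pd_comp`), where the last term is `0`: if `ψ(f y) ≠ 0` then `f y > 0`, so `‖y - p‖ < δ / 4` (or `y` is outside `ball p (δ / 2)`), where `χ`
is locally constant. So both terms are `≥ 0` (`tang_nonneg`) and by `area_pos` they vanish on `surf F`: `χ ψ'(f) tang f f = 0`, hence `tang g g = 0` on `surf F`.
(4) `green` for `∑ k, y_k ^ 2` and `g`: `area (g * 4 + tang (∑ y_k ^ 2) g) = len (g * ..) = 0` (`lap_sq`); `tang (∑ y_k ^ 2) g = 0` by Cauchy-Schwarz for the nonnegative form `tang` (`tang_nonneg` for `v + t w`), so `area g = 0`, `g = 0` on `surf F`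
(`area_pos`), that is `f ≤ 0` on `surf F ∩ closedBall p (δ / 4)`.
(5) `f p = 0`, so `nd_nonneg` gives `0 ≤ nd f p = η * nd b p - kap F p` (`nd_uu`), and `nd b p = - 2 κ (∑ p_k (p_k - a_k)) exp(- κ r ^ 2) = - 2 κ r exp(- κ r ^ 2) < 0`. So `kap F p < 0`.
-/

set_option autoImplicit false

open MeasureTheory Filter
open scoped ContDiff Topology

namespace Pool.Agent.Helper78.FB

variable {F : E → ℝ}

variable {f w : E → ℝ}

/-! ### the barrier -/

private noncomputable def hoq (a : E) (y : E) : ℝ := ∑ i, (y i - a i) ^ 2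

private theorem ho_cdq (a : E) : ContDiff ℝ ∞ (hoq a) := by
  show ContDiff ℝ ∞ (fun y : E => ∑ i, (y i - a i) ^ 2)
  exact ContDiff.sum fun i _ => ((contDiff_coord i).sub contDiff_const).pow 2

private theorem ho_pdc (i j : Fin 3) (c : ℝ) :
    pd i (fun y : E => y j - c) = fun _ => if i = j then 1 else 0 := by
  rw [pd_sub i (contDiff_coord j) contDiff_const, pd_coord, pd_const]
  funext y
  rw [sub_zero]

private theorem ho_pdq (i : Fin 3) (a : E) : pd i (hoq a) = fun y => 2 * (y i - a i) := by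
  have h1 : pd i (fun y : E => ∑ j, (y j - a j) ^ 2) =
      fun y => ∑ j, pd i (fun y : E => (y j - a j) ^ 2) y :=
    pd_sum i Finset.univ (fun j (y : E) => (y j - a j) ^ 2)
      fun j _ => ((contDiff_coord j).sub contDiff_const).pow 2
  have h2 : ∀ j : Fin 3, pd i (fun y : E => (y j - a j) ^ 2) =
      fun y => 2 * (y j - a j) * if i = j then 1 else 0 := by
    intro j
    have h3 : (fun y : E => (y j - a j) ^ 2) = fun y : E => (y j - a j) * (y j - a j) := by
      funext y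
      ring
    rw [h3, pd_mul i ((contDiff_coord j).sub contDiff_const) ((contDiff_coord j).sub contDiff_const),
      ho_pdc]
    funext y
    ring
  show pd i (fun y : E => ∑ j, (y j - a j) ^ 2) = _
  rw [h1]
  funext y
  simp only [h2]
  simp

private theorem ho_psi (κ : ℝ) : ContDiff ℝ ∞ (fun s : ℝ => Real.exp (-κ * s)) :=
  Real.contDiff_exp.comp (contDiff_const.mul contDiff_id)

private theorem ho_dpsi (κ s : ℝ) : deriv (fun s : ℝ => Real.exp (-κ * s)) s =
    -κ * Real.exp (-κ * s) := by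
  have h1 : HasDerivAt (fun s : ℝ => -κ * s) (-κ) s := by
    simpa using (hasDerivAt_id s).const_mul (-κ)
  rw [h1.exp.deriv]
  ring

private theorem ho_pdb (i : Fin 3) (κ : ℝ) (a : E) (r : ℝ) : pd i (barr κ a r) =
    fun y => -2 * κ * (y i - a i) * Real.exp (-κ * ∑ k, (y k - a k) ^ 2) := by
  have h1 := pd_comp i (fun s : ℝ => Real.exp (-κ * s)) (ho_psi κ) (ho_cdq a)
  have h2 : ContDiff ℝ ∞ (fun y => Real.exp (-κ * hoq a y)) := (ho_psi κ).comp (ho_cdq a)
  show pd i (fun y : E => Real.exp (-κ * hoq a y) - Real.exp (-κ * r ^ 2)) = _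
  rw [pd_sub i h2 contDiff_const, h1, pd_const]
  funext y
  simp only [sub_zero, ho_dpsi, ho_pdq]
  show -κ * Real.exp (-κ * ∑ k, (y k - a k) ^ 2) * (2 * (y i - a i)) = _
  ring

/-! ### the forms -/

private theorem ho_tang (F : E → ℝ) {χ : E → ℝ} {ψ : ℝ → ℝ} (hψ : ContDiff ℝ ∞ ψ)
    (hf : ContDiff ℝ ∞ f) (hχ : ContDiff ℝ ∞ χ) (w : E → ℝ) (y : E) :
    tang F w (fun y => χ y * ψ (f y)) y =
      χ y * (deriv ψ (f y) * tang F w f y) + ψ (f y) * tang F w χ y := by
  have h1 : ∀ i, pd i (fun y => χ y * ψ (f y)) =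
      fun y => pd i χ y * ψ (f y) + χ y * (deriv ψ (f y) * pd i f y) := by
    intro i
    have e := pd_mul i (g := fun y => ψ (f y)) hχ (hψ.comp hf)
    rw [pd_comp i ψ hψ hf] at e
    exact e
  unfold tang
  simp only [h1, Fin.sum_univ_three]
  ring

private theorem ho_cs (h : FBMS F) (hw : ContDiff ℝ ∞ w) (hf : ContDiff ℝ ∞ f) {y : E}
    (hy : y ∈ surf F) (h0 : tang F f f y = 0) : tang F w f y = 0 := by
  have key : ∀ t : ℝ, tang F (fun y => w y + t * f y) (fun y => w y + t * f y) y =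
      tang F w w y + 2 * t * tang F w f y + t ^ 2 * tang F f f y := by
    intro t
    have h1 : ∀ i, pd i (fun y => w y + t * f y) = fun y => pd i w y + t * pd i f y := by
      intro i
      have e := pd_add i (g := fun y => t * f y) hw (contDiff_const.mul hf)
      rw [pd_const_mul i t hf] at e
      exact e
    unfold tang
    simp only [h1, Fin.sum_univ_three]
    ring
  by_contra hne
  have h2 := tang_nonneg h
    (fun z => w z + (-(tang F w w y + 1) / (2 * tang F w f y)) * f z) hy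
  rw [key, h0] at h2
  have h3 : 2 * (-(tang F w w y + 1) / (2 * tang F w f y)) * tang F w f y =
      -(tang F w w y + 1) := by
    field_simp
  rw [h3] at h2
  linarith

private theorem ho_lap {b u : E → ℝ} (hb : ContDiff ℝ ∞ b) (hu : ContDiff ℝ ∞ u) (η : ℝ) (y : E) :
    lap F (fun y => η * b y - u y) y = η * lap F b y - lap F u y := by
  have h1 : ∀ i, pd i (fun y => η * b y - u y) = fun y => η * pd i b y - pd i u y := by
    intro i
    rw [pd_sub i (contDiff_const.mul hb) hu, pd_const_mul i η hb]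
  have h2 : ∀ i j, pd i (pd j (fun y => η * b y - u y)) =
      fun y => η * pd i (pd j b) y - pd i (pd j u) y := by
    intro i j
    rw [h1, pd_sub i (contDiff_const.mul (contDiff_pd j hb)) (contDiff_pd j hu),
      pd_const_mul i η (contDiff_pd j hb)]
  unfold lap
  simp only [h2, Fin.sum_univ_three]
  ring

private theorem ho_nd {b u : E → ℝ} (hb : ContDiff ℝ ∞ b) (hu : ContDiff ℝ ∞ u) (η : ℝ) (y : E) :
    nd (fun y => η * b y - u y) y = η * nd b y - nd u y := by
  have h1 : ∀ i, pd i (fun y => η * b y - u y) = fun y => η * pd i b y - pd i u y := by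
    intro i
    rw [pd_sub i (contDiff_const.mul hb) hu, pd_const_mul i η hb]
  unfold nd
  simp only [h1, Fin.sum_univ_three]
  ring

private theorem ho_zero (h : FBMS F) {Φ : E → ℝ} (hc : Continuous Φ)
    (hn : ∀ y ∈ surf F, 0 ≤ Φ y) (h0 : area F Φ = 0) : ∀ y ∈ surf F, Φ y = 0 := by
  intro y hy
  by_contra hne
  have := area_pos h hc.continuousOn hn hy (lt_of_le_of_ne (hn y hy) (Ne.symm hne))
  linarith

private theorem ho_id {p : E} (hp : ‖p‖ = 1) (y : E) :
    ‖y - (3 / 4 : ℝ) • p‖ ^ 2 = ‖y‖ ^ 2 / 4 - 3 / 16 + 3 / 4 * ‖y - p‖ ^ 2 := by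
  have h1 : ‖p‖ ^ 2 = 1 := by rw [hp, one_pow]
  rw [norm_sq] at h1
  rw [norm_sq, norm_sq, norm_sq]
  simp only [Fin.sum_univ_three, PiLp.sub_apply, PiLp.smul_apply, smul_eq_mul] at h1 ⊢
  linear_combination (-3 / 16) * h1

/-- If `ψ (f y) ≠ 0` then `χ` is constant near `y`. -/
private theorem ho_chi {p : E} {δ : ℝ} (χ : ContDiffBump p) (h1 : χ.rIn = δ / 3)
    (h2 : χ.rOut = δ / 2) (hδ : 0 < δ) (F : E → ℝ) (w : E → ℝ) {y : E}
    (hy : ‖y - p‖ < δ / 4 ∨ δ / 2 < ‖y - p‖) : tang F w χ y = 0 := by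
  have h3 : ∀ i, pd i χ y = 0 := by
    intro i
    rcases hy with hy | hy
    · have h4 : (χ : E → ℝ) =ᶠ[𝓝 y] fun _ => 1 := by
        refine χ.eventuallyEq_one_of_mem_ball ?_
        rw [Metric.mem_ball, dist_eq_norm, h1]
        linarith
      rw [pd_congr i h4, pd_const]
    · have h4 : (χ : E → ℝ) =ᶠ[𝓝 y] fun _ => 0 := by
        have h5 : {z : E | δ / 2 < ‖z - p‖} ∈ 𝓝 y :=
          (isOpen_lt continuous_const (continuous_id.sub continuous_const).norm).mem_nhds hy
        filter_upwards [h5] with z hz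
        refine χ.zero_of_le_dist ?_
        rw [dist_eq_norm, h2]
        exact le_of_lt hz
      rw [pd_congr i h4, pd_const]
  unfold tang
  simp only [h3, mul_zero, Finset.sum_const_zero, sub_zero]

theorem kap_neg_all (h : FBMS F) (hu : ∀ y ∈ inn F, 0 < uu F y) : ∀ p ∈ bdry F, kap F p < 0 := by
  intro p hp
  have hF := h.smooth
  have hp1 : ‖p‖ = 1 := hp.1
  have hps : p ∈ surf F := ⟨hp1.le, hp.2⟩
  have hps2 : ∑ k, p k ^ 2 = 1 := by rw [← norm_sq, hp1, one_pow]
  have hid := ho_id hp1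
  obtain ⟨a, ha⟩ : ∃ a : E, a = (3 / 4 : ℝ) • p := ⟨_, rfl⟩
  rw [← ha] at hid
  have hak : ∀ k, a k = 3 / 4 * p k := by
    intro k
    rw [ha, PiLp.smul_apply, smul_eq_mul]
  have hqn : ∀ y : E, ∑ i, (y i - a i) ^ 2 = ‖y - a‖ ^ 2 := by
    intro y
    rw [norm_sq]
    exact Finset.sum_congr rfl fun k _ => by rw [PiLp.sub_apply]
  have hpa : ‖p - a‖ ^ 2 = 1 / 16 := by
    rw [hid, hp1, sub_self, norm_zero]
    norm_num
  have huu0 : ∀ y ∈ surf F, 0 ≤ uu F y := by
    intro y hy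
    rcases eq_or_lt_of_le hy.1 with h1 | h1
    · exact (orth h ⟨h1, hy.2⟩).ge
    · exact (hu y ⟨h1, hy.2⟩).le
  have hfar : ∀ y : E, ‖y‖ = 1 → 1 / 4 ≤ ‖y - a‖ := by
    intro y hy
    have h1 := hid y
    rw [hy] at h1
    have h2 := sq_nonneg ‖y - p‖
    have h3 := norm_nonneg (y - a)
    nlinarith
  have hin : ∀ y : E, ‖y‖ ≤ 1 → ‖y - a‖ ≤ 1 / 4 → 0 < ‖y - p‖ → ‖y‖ < 1 := by
    intro y hy hya hyp
    rcases eq_or_lt_of_le hy with h1 | h1
    · exfalso
      have h2 := hid y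
      rw [h1] at h2
      have h3 : 0 < ‖y - p‖ ^ 2 := by positivity
      have h4 := norm_nonneg (y - a)
      nlinarith
    · exact h1
  -- the Laplacian of the barrier near `p`
  obtain ⟨Θ, hΘ⟩ : ∃ Θ : E → ℝ, Θ = fun y =>
    ∑ i, (y i - a i) ^ 2 - (∑ i, pd i F y * (y i - a i)) ^ 2 := ⟨_, rfl⟩
  have hΘc : Continuous Θ := by
    have c1 : ∀ i, Continuous fun y : E => y i - a i := fun i =>
      (contDiff_coord i).continuous.sub continuous_const
    have c2 : ∀ i, Continuous (pd i F) := fun i => (contDiff_pd i hF).continuous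
    rw [hΘ]
    simp only [Fin.sum_univ_three]
    have c10 := c1 0
    have c11 := c1 1
    have c12 := c1 2
    have c20 := c2 0
    have c21 := c2 1
    have c22 := c2 2
    fun_prop
  have hΘp : Θ p = 1 / 16 := by
    have h1 : ∑ i, pd i F p * (p i - a i) = 1 / 4 * uu F p := by
      unfold uu
      rw [Finset.mul_sum]
      refine Finset.sum_congr rfl fun i _ => ?_
      rw [hak]
      ring
    rw [hΘ]
    show ∑ i, (p i - a i) ^ 2 - (∑ i, pd i F p * (p i - a i)) ^ 2 = 1 / 16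
    rw [h1, orth h hp, hqn, hpa]
    norm_num
  obtain ⟨δ, hδ, hball⟩ := Metric.isOpen_iff.1 (isOpen_lt continuous_const hΘc) p
    (show 1 / 32 < Θ p by rw [hΘp]; norm_num)
  have hlapb : ∀ y ∈ surf F, ‖y - p‖ < δ → 0 ≤ lap F (barr 32 a (1 / 4)) y := by
    intro y hy hyp
    rw [lap_barr h 32 a (1 / 4) hy]
    have h1 : 1 / 32 < Θ y := hball (by rw [Metric.mem_ball, dist_eq_norm]; exact hyp)
    rw [hΘ] at h1
    have h2 : 1 / 32 < ∑ i, (y i - a i) ^ 2 - (∑ i, pd i F y * (y i - a i)) ^ 2 := h1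
    refine mul_nonneg (Real.exp_pos _).le ?_
    linarith
  -- the lower bound of `u` on the annulus
  obtain ⟨K, hK⟩ : ∃ K : Set E, K = surf F ∩
    {y | δ / 4 ≤ ‖y - p‖ ∧ ‖y - p‖ ≤ δ / 2 ∧ ‖y - a‖ ≤ 1 / 4} := ⟨_, rfl⟩
  have cp : Continuous fun y : E => ‖y - p‖ := (continuous_id.sub continuous_const).norm
  have ca : Continuous fun y : E => ‖y - a‖ := (continuous_id.sub continuous_const).norm
  have hKc : IsCompact K := by
    rw [hK]
    exact (isCompact_surf h).inter_right ((isClosed_le continuous_const cp).inter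
      ((isClosed_le cp continuous_const).inter (isClosed_le ca continuous_const)))
  have hKi : ∀ y ∈ K, y ∈ inn F := by
    intro y hy
    rw [hK] at hy
    obtain ⟨hy1, hy2, -, hy4⟩ := hy
    exact ⟨hin y hy1.1 hy4 (by linarith), hy1.2⟩
  obtain ⟨m, hm0, hm⟩ : ∃ m : ℝ, 0 < m ∧ ∀ y ∈ K, m ≤ uu F y := by
    rcases K.eq_empty_or_nonempty with h0 | hne
    · exact ⟨1, one_pos, fun y hy => absurd hy (by rw [h0]; exact Set.notMem_empty _)⟩
    · obtain ⟨z, hz, hmin⟩ := hKc.exists_isMinOn hne (contDiff_uu hF).continuous.continuousOn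
      exact ⟨uu F z, hu z (hKi z hz), fun y hy => hmin hy⟩
  obtain ⟨b, hb⟩ : ∃ b : E → ℝ, b = barr 32 a (1 / 4) := ⟨_, rfl⟩
  have hbs : ContDiff ℝ ∞ b := by rw [hb]; exact contDiff_barr _ _ _
  have hus : ContDiff ℝ ∞ (uu F) := contDiff_uu hF
  have hb1 : ∀ y, b y ≤ 1 := fun y => by rw [hb]; exact barr_le_one (by norm_num) a _ y
  have hbn : ∀ y, 1 / 4 ≤ ‖y - a‖ → b y ≤ 0 := fun y hy => by
    rw [hb]; exact barr_nonpos (by norm_num) a (by norm_num) hy
  obtain ⟨f, hf⟩ : ∃ f : E → ℝ, f = fun y => m / 2 * b y - uu F y := ⟨_, rfl⟩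
  have hfs : ContDiff ℝ ∞ f := by rw [hf]; exact (contDiff_const.mul hbs).sub hus
  have hfy : ∀ y, f y = m / 2 * b y - uu F y := fun y => by rw [hf]
  have hfb : ∀ y ∈ bdry F, f y ≤ 0 := by
    intro y hy
    have h1 := hbn y (hfar y hy.1)
    rw [hfy, orth h hy]
    nlinarith
  have hann : ∀ y ∈ surf F, 0 < f y → ‖y - p‖ < δ / 4 ∨ δ / 2 < ‖y - p‖ := by
    intro y hy hfy0
    by_contra hcon
    push Not at hcon
    obtain ⟨h1, h2⟩ := hcon
    rw [hfy] at hfy0
    rcases le_total ‖y - a‖ (1 / 4) with h3 | h3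
    · have h4 : y ∈ K := by rw [hK]; exact ⟨hy, h1, h2, h3⟩
      have h5 := hm y h4
      have h6 := hb1 y
      nlinarith
    · have h4 := hbn y h3
      have h5 := huu0 y hy
      nlinarith
  -- the test function
  let χ : ContDiffBump p := ⟨δ / 3, δ / 2, by positivity, by linarith⟩
  have hχs : ContDiff ℝ ∞ (χ : E → ℝ) := χ.contDiff
  have hψs : ContDiff ℝ ∞ expNegInvGlue := expNegInvGlue.contDiff
  obtain ⟨g, hg⟩ : ∃ g : E → ℝ, g = fun y => χ y * expNegInvGlue (f y) := ⟨_, rfl⟩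
  have hgy : ∀ y, g y = χ y * expNegInvGlue (f y) := fun y => by rw [hg]
  have hgs : ContDiff ℝ ∞ g := by rw [hg]; exact hχs.mul (hψs.comp hfs)
  have hg0 : ∀ y, 0 ≤ g y := fun y => by
    rw [hgy]; exact mul_nonneg χ.nonneg (expNegInvGlue.nonneg _)
  have hgb : ∀ y ∈ bdry F, g y = 0 := fun y hy => by
    rw [hgy, expNegInvGlue.zero_of_nonpos (hfb y hy), mul_zero]
  have hlen : ∀ v : E → ℝ, len F (fun y => g y * v y) = 0 := by
    intro v
    have h1 : len F (fun y => g y * v y) = len F (fun _ => 0) :=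
      len_congr (fun y hy => by rw [hgb y hy, zero_mul]) h
    rw [h1]
    simp [len]
  have htg : ∀ v : E → ℝ, ∀ y ∈ surf F,
      tang F v g y = χ y * (deriv expNegInvGlue (f y) * tang F v f y) := by
    intro v y hy
    rw [hg, ho_tang F hψs hfs hχs v y]
    rcases le_or_gt (f y) 0 with h1 | h1
    · rw [expNegInvGlue.zero_of_nonpos h1, zero_mul, add_zero]
    · rw [ho_chi χ rfl rfl hδ F v (hann y hy h1), mul_zero, add_zero]
  have hd0 : ∀ t : ℝ, 0 ≤ deriv expNegInvGlue t := fun t => expNegInvGlue.monotone.deriv_nonneg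
  have hlapf : ∀ y ∈ surf F, 0 ≤ g y * lap F f y := by
    intro y hy
    by_cases hyp : ‖y - p‖ < δ
    · refine mul_nonneg (hg0 y) ?_
      rw [hf, ho_lap hbs hus, lap_uu h hy, hb]
      have h1 := hlapb y hy hyp
      have h2 := normA_nonneg (F := F) y
      have h3 := huu0 y hy
      have h4 : 0 ≤ m / 2 * lap F (barr 32 a (1 / 4)) y := mul_nonneg (by linarith) h1
      have h5 : 0 ≤ normA F y * uu F y := mul_nonneg h2 h3
      linarith
    · have h1 : (χ : E → ℝ) y = 0 := by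
        refine χ.zero_of_le_dist ?_
        rw [dist_eq_norm]
        show δ / 2 ≤ _
        linarith [not_lt.1 hyp]
      rw [hgy, h1, zero_mul, zero_mul]
  have hff : ∀ y ∈ surf F, 0 ≤ χ y * (deriv expNegInvGlue (f y) * tang F f f y) := fun y hy =>
    mul_nonneg χ.nonneg (mul_nonneg (hd0 _) (tang_nonneg h f hy))
  have hz := ho_zero h (Φ := fun y => g y * lap F f y + tang F f g y)
    ((hgs.mul (contDiff_lap hF hfs)).add (contDiff_tang hF hfs hgs)).continuous
    (fun y hy => by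
      have h1 := hff y hy
      rw [← htg f y hy] at h1
      exact add_nonneg (hlapf y hy) h1)
    (by rw [green h hfs hgs, hlen])
  have hff0 : ∀ y ∈ surf F, χ y * (deriv expNegInvGlue (f y) * tang F f f y) = 0 := by
    intro y hy
    have h1 : g y * lap F f y + tang F f g y = 0 := hz y hy
    have h2 := hff y hy
    have h3 := hlapf y hy
    rw [htg f y hy] at h1
    linarith
  have hsqs : ContDiff ℝ ∞ (fun y : E => ∑ k, y k ^ 2) :=
    ContDiff.sum fun k _ => (contDiff_coord k).pow 2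
  have htw : ∀ y ∈ surf F, tang F (fun y : E => ∑ k, y k ^ 2) g y = 0 := by
    intro y hy
    rw [htg _ y hy]
    rcases mul_eq_zero.1 (hff0 y hy) with h1 | h1
    · rw [h1, zero_mul]
    · rcases mul_eq_zero.1 h1 with h2 | h2
      · rw [h2, zero_mul, mul_zero]
      · rw [ho_cs h hsqs hfs hy h2, mul_zero, mul_zero]
  have hgz : ∀ y ∈ surf F, g y = 0 := by
    have h1 := green h hsqs hgs
    rw [hlen] at h1
    have h2 : area F (fun y => g y * lap F (fun y : E => ∑ k, y k ^ 2) y +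
        tang F (fun y : E => ∑ k, y k ^ 2) g y) = area F (fun y => 4 * g y) := by
      refine area_congr (fun y hy => ?_) h
      rw [lap_sq h hy, htw y hy]
      ring
    rw [h2, area_const_mul] at h1
    exact ho_zero h hgs.continuous (fun y _ => hg0 y) (by linarith)
  -- the sign of the conormal derivative
  have hfp : f p = 0 := by
    rw [hfy, orth h hp, hb]
    unfold barr
    rw [hqn, hpa]
    norm_num
  have hnd := nd_nonneg h hp hfs hfp (ε := δ / 3) (by positivity) (by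
    intro y hy hyp
    by_contra hcon
    push Not at hcon
    have h1 := hgz y ⟨hy.1.le, hy.2⟩
    rw [hgy, χ.one_of_mem_closedBall (Metric.ball_subset_closedBall hyp), one_mul] at h1
    exact (expNegInvGlue.pos_of_pos hcon).ne' h1)
  rw [hf, ho_nd hbs hus, nd_uu h hp] at hnd
  have hndb : nd b p < 0 := by
    unfold nd
    rw [hb]
    simp only [ho_pdb]
    have h1 : ∀ e : ℝ, ∑ k, p k * (-2 * 32 * (p k - a k) * e) = -16 * e * ∑ k, p k ^ 2 := by
      intro e
      rw [Finset.mul_sum]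
      refine Finset.sum_congr rfl fun k _ => ?_
      rw [hak k]
      ring
    rw [h1, hps2]
    have h2 := Real.exp_pos (-32 * ∑ k, (p k - a k) ^ 2)
    linarith
  nlinarith

end Pool.Agent.Helper78.FB
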