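import Pool.Agent.Helper94.FS.NegGen

/-!
# FS-04 KapNeS: the boundary is not empty and `kap` is not identically zero on it (no symmetry is assumed)

* `bdry_nonempty_s`: as `bdry_nonempty` in `FB/KapNe.lean`; or: `len 1 = 2 area 1 > 0` (`len_one`), and `len` is `0` if `bdry F = ∅`.
* `kap_ne_s`: suppose `kap F = 0` on `bdry F`, so all second derivatives of `F` vanish there (`bdryA`). Write `N_m = pd m F`, `T = crs F y`. `curl` with `g y = pd m F y * crs F y j`: on `bdry F` `∑ k, T_k pd k g = - N_m y_j` (`tan_crs` with `kap = 0`;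
  `∑ k, T_k pd k (pd m F) = 0`), so `len (N_m y_j) = 0` for all `m, j`. Choose `c : Fin 3 → ℝ`, `c ≠ 0`, with `∑ m, c m * len (N_m) = 0` (one linear equation in three unknowns), `f = ∑ m, c m * pd m F`. By `Q_pd` and bilinearity
  `Q f 1 = - ∑ c m len (N_m) = 0`, `Q f (y_j) = - ∑ c m len (N_m y_j) = 0`, so `Q_lower` gives `0 ≤ Q f f = - 2 area (f ^ 2)` (`Q_pd_pd`). So `f = 0` on `surf F` (`area_pos`) and `normal_dir` gives `normA = 0` on `surf F`, a contradiction.
-/

set_option autoImplicit false

open MeasureTheory Filter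
open scoped ContDiff Topology

namespace Pool.Agent.Helper78.FB

variable {F : E → ℝ}

private theorem bdry_surf {y : E} (hy : y ∈ bdry F) : y ∈ surf F := ⟨le_of_eq hy.1, hy.2⟩

private theorem Q_sum_left (h : FBMS F) {ι : Type} (s : Finset ι) (c : ι → ℝ) (b : ι → E → ℝ)
    (hb : ∀ i, ContDiff ℝ ∞ (b i)) {w : E → ℝ} (hw : ContDiff ℝ ∞ w) :
    Q F (fun y => ∑ i ∈ s, c i * b i y) w = ∑ i ∈ s, c i * Q F (b i) w := by
  classical
  induction s using Finset.induction_on with
  | empty =>
    simp only [Finset.sum_empty]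
    have h1 := Q_const_mul_left h 0 (contDiff_const (c := (0 : ℝ))) hw
    simpa using h1
  | insert a s ha ih =>
    have h1 : (fun y => ∑ i ∈ insert a s, c i * b i y) =
        fun y => c a * b a y + ∑ i ∈ s, c i * b i y := by
      funext y
      exact Finset.sum_insert ha
    have h2 : ContDiff ℝ ∞ (fun y => ∑ i ∈ s, c i * b i y) :=
      ContDiff.sum fun i _ => contDiff_const.mul (hb i)
    rw [h1, Q_add_left h (contDiff_const.mul (hb a)) h2 hw, Q_const_mul_left h (c a) (hb a) hw, ih,
      Finset.sum_insert ha]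

private theorem area_sum (h : FBMS F) {ι : Type} (s : Finset ι) (c : ι → ℝ) (b : ι → E → ℝ)
    (hb : ∀ i, ContinuousOn (b i) (surf F)) :
    area F (fun y => ∑ i ∈ s, c i * b i y) = ∑ i ∈ s, c i * area F (b i) := by
  classical
  induction s using Finset.induction_on with
  | empty =>
    simp [area]
  | insert a s ha ih =>
    have h1 : (fun y => ∑ i ∈ insert a s, c i * b i y) =
        fun y => c a * b a y + ∑ i ∈ s, c i * b i y := by
      funext y
      exact Finset.sum_insert ha
    have h2 : ContinuousOn (fun y => ∑ i ∈ s, c i * b i y) (surf F) :=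
      continuousOn_finsetSum _ fun i _ => continuousOn_const.mul (hb i)
    have h3 : ContinuousOn (fun y => c a * b a y) (surf F) := continuousOn_const.mul (hb a)
    rw [h1, area_add h h3 h2, area_const_mul, ih, Finset.sum_insert ha]

theorem bdry_nonempty_s (h : FBMS F) (hn : ∃ y ∈ surf F, normA F y ≠ 0) : (bdry F).Nonempty := by
  by_contra hne
  rw [Set.not_nonempty_iff_eq_empty] at hne
  have h1 := len_one h
  have h3 : len F (fun _ => 1) = 0 := by
    rw [len, hne]
    simp
  rw [h3] at h1
  obtain ⟨z, hz, -⟩ := hn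
  have h4 : 0 < area F (fun _ => (1 : ℝ)) :=
    area_pos h continuousOn_const (fun y _ => by norm_num) hz (by norm_num)
  linarith

/-- `Q` is bilinear on the components of the normal. -/
theorem Q_normal (h : FBMS F) (c : Fin 3 → ℝ) :
    Q F (fun y => ∑ m, c m * pd m F y) (fun y => ∑ m, c m * pd m F y) =
      -(2 * area F (fun y => (∑ m, c m * pd m F y) ^ 2)) := by
  have hF := h.smooth
  have hs : ContDiff ℝ ∞ (fun y => ∑ m, c m * pd m F y) :=
    ContDiff.sum fun i _ => contDiff_const.mul (contDiff_pd i hF)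
  rw [Q_sum_left h Finset.univ c (fun m => pd m F) (fun m => contDiff_pd m hF) hs]
  have h1 : ∀ m, Q F (pd m F) (fun y => ∑ n, c n * pd n F y) =
      -(2 * area F (fun y => ∑ n, c n * (pd m F y * pd n F y))) := by
    intro m
    rw [Q_comm, Q_sum_left h Finset.univ c (fun n => pd n F) (fun n => contDiff_pd n hF)
      (contDiff_pd m hF), area_sum h Finset.univ c (fun n y => pd m F y * pd n F y)
      (fun n => ((contDiff_pd m hF).mul (contDiff_pd n hF)).continuous.continuousOn),
      Finset.mul_sum, ← Finset.sum_neg_distrib]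
    refine Finset.sum_congr rfl fun n _ => ?_
    rw [Q_comm, Q_pd_pd h m n]
    ring
  have h2 : area F (fun y => (∑ m, c m * pd m F y) ^ 2) =
      ∑ m, c m * area F (fun y => ∑ n, c n * (pd m F y * pd n F y)) := by
    rw [← area_sum h Finset.univ c (fun m y => ∑ n, c n * (pd m F y * pd n F y))
      (fun m => (ContDiff.sum fun n _ => contDiff_const.mul
        ((contDiff_pd m hF).mul (contDiff_pd n hF))).continuous.continuousOn)]
    refine area_congr (fun y _ => ?_) h
    rw [sq, Finset.sum_mul]
    refine Finset.sum_congr rfl fun m _ => ?_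
    rw [Finset.mul_sum, Finset.mul_sum]
    refine Finset.sum_congr rfl fun n _ => ?_
    ring
  rw [h2, Finset.mul_sum, ← Finset.sum_neg_distrib]
  refine Finset.sum_congr rfl fun m _ => ?_
  rw [h1 m]
  ring

private theorem len_nc (h : FBMS F) (hk : ∀ p ∈ bdry F, kap F p = 0) (m j : Fin 3) :
    len F (fun y => pd m F y * y j) = 0 := by
  have hF := h.smooth
  have h1 := curl h (g := fun y => pd m F y * crs F y j)
    ((contDiff_pd m hF).mul (contDiff_crs hF j))
  have h2 : ∀ y ∈ bdry F, ∑ k, crs F y k * pd k (fun y => pd m F y * crs F y j) y =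
      (-1) * (pd m F y * y j) := by
    intro y hy
    have h3 : ∀ k, pd k (fun y => pd m F y * crs F y j) y =
        pd m F y * pd k (fun y => crs F y j) y := by
      intro k
      rw [pd_mul k (contDiff_pd m hF) (contDiff_crs hF j)]
      have h4 : pd k (pd m F) y = 0 := by
        rw [bdryA h hy k m, hk y hy, zero_mul]
      simp only [h4]
      ring
    have h5 : ∑ k, crs F y k * pd k (fun y => pd m F y * crs F y j) y =
        pd m F y * ∑ k, crs F y k * pd k (fun y => crs F y j) y := by
      rw [Finset.mul_sum]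
      refine Finset.sum_congr rfl fun k _ => ?_
      rw [h3 k]
      ring
    rw [h5, tan_crs h hy j, hk y hy]
    ring
  rw [len_congr h2 h, len_const_mul] at h1
  linarith

private theorem exists_orth (a : Fin 3 → ℝ) : ∃ c : Fin 3 → ℝ, c ≠ 0 ∧ ∑ m, c m * a m = 0 := by
  by_cases h0 : a 0 = 0
  · refine ⟨![1, 0, 0], fun hc => ?_, ?_⟩
    · have h1 := congrFun hc 0
      simp at h1
    · rw [Fin.sum_univ_three]
      simp [h0]
  · refine ⟨![-a 1, a 0, 0], fun hc => ?_, ?_⟩
    · have h1 := congrFun hc 1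
      simp at h1
      exact h0 h1
    · rw [Fin.sum_univ_three]
      simp
      ring

theorem kap_ne_s (h : FBMS F) (hn : ∃ y ∈ surf F, normA F y ≠ 0) (hi : IndexLeFour F) :
    ∃ p ∈ bdry F, kap F p ≠ 0 := by
  have hF := h.smooth
  by_contra hcon
  have hk : ∀ p ∈ bdry F, kap F p = 0 := by
    intro p hp
    by_contra hne
    exact hcon ⟨p, hp, hne⟩
  obtain ⟨c, hc, hc0⟩ := exists_orth (fun m => len F (pd m F))
  obtain ⟨C, hC, hlow⟩ := Q_lower h hn hi
  have hs : ContDiff ℝ ∞ (fun y => ∑ m, c m * pd m F y) :=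
    ContDiff.sum fun i _ => contDiff_const.mul (contDiff_pd i hF)
  have hq1 : ∀ m, Q F (pd m F) (fun _ => 1) = -len F (pd m F) := by
    intro m
    rw [Q_pd h m contDiff_const]
    have h3 : ∀ y ∈ bdry F, (kap F y * y m - pd m F y) * 1 = (-1) * pd m F y := by
      intro y hy
      rw [hk y hy]
      ring
    rw [len_congr h3 h, len_const_mul]
    ring
  have hq2 : ∀ m j : Fin 3, Q F (pd m F) (fun y => y j) = 0 := by
    intro m j
    rw [Q_pd h m (contDiff_coord j)]
    have h3 : ∀ y ∈ bdry F, (kap F y * y m - pd m F y) * y j = (-1) * (pd m F y * y j) := by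
      intro y hy
      rw [hk y hy]
      ring
    rw [len_congr h3 h, len_const_mul, len_nc h hk m j, mul_zero]
  have hz0 : Q F (fun y => ∑ m, c m * pd m F y) (fun _ => 1) = 0 := by
    rw [Q_sum_left h Finset.univ c (fun m => pd m F) (fun m => contDiff_pd m hF) contDiff_const]
    have h3 : ∀ m, c m * Q F (pd m F) (fun _ => 1) = -(c m * len F (pd m F)) := by
      intro m
      rw [hq1 m]
      ring
    rw [Finset.sum_congr rfl fun m _ => h3 m, Finset.sum_neg_distrib]
    exact neg_eq_zero.2 hc0
  have hzj : ∀ j : Fin 3, Q F (fun y => ∑ m, c m * pd m F y) (fun y => y j) = 0 := by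
    intro j
    rw [Q_sum_left h Finset.univ c (fun m => pd m F) (fun m => contDiff_pd m hF)
      (contDiff_coord j)]
    exact Finset.sum_eq_zero fun m _ => by rw [hq2 m j, mul_zero]
  have hsum : ∑ i, Q F (fun y => ∑ m, c m * pd m F y) (zz i) ^ 2 = 0 := by
    rw [Fin.sum_univ_four]
    have e0 : Q F (fun y => ∑ m, c m * pd m F y) (zz 0) = 0 := hz0
    have e1 : Q F (fun y => ∑ m, c m * pd m F y) (zz 1) = 0 := hzj 0
    have e2 : Q F (fun y => ∑ m, c m * pd m F y) (zz 2) = 0 := hzj 1
    have e3 : Q F (fun y => ∑ m, c m * pd m F y) (zz 3) = 0 := hzj 2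
    rw [e0, e1, e2, e3]
    norm_num
  have h1 := hlow _ hs
  rw [hsum, mul_zero, Q_normal h c] at h1
  have hzero : ∀ y ∈ surf F, ∑ m, c m * pd m F y = 0 := by
    intro z hz
    by_contra hne
    have h2 : 0 < area F (fun y => (∑ m, c m * pd m F y) ^ 2) :=
      area_pos h (hs.continuous.pow 2).continuousOn (fun y _ => sq_nonneg _) hz (by positivity)
    linarith
  obtain ⟨z, hz, hzn⟩ := hn
  exact hzn (normal_dir h hc hzero z hz)

end Pool.Agent.Helper78.FB
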