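import Pool.Agent.Helper94.FB.LimG

/-!
# FS-05 LimS: pairing of `G_n(uu F)` with the coordinates and with the components of the normal (no symmetry is assumed)

* `lim_QGi`: exactly as `lim_QG1` in `FB/LimG.lean`: `Q_comm`, `Q_coord`: `Q (y_i) (G_n u) = - area (normA * (y_i * G_n u))`, `gfun_tendsto`, `gfun_bound`, `area_tendsto` (`|y_i| ≤ 1` on `surf F`).
* `QG_pd`: `Q_comm`, `Q_pd`: `Q (pd m F) (G u) = len ((kap y_m - pd m F) * G u) = 0`, because `u = 0` on `bdry F` (`orth`) and `gfun _ _ _ 0 = 0`.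
-/

set_option autoImplicit false

open MeasureTheory Filter
open scoped ContDiff Topology

namespace Pool.Agent.Helper78.FB

variable {F : E → ℝ}

private theorem ls_zero (α β ε : ℝ) : gfun α β ε 0 = 0 := by
  unfold gfun
  rw [zero_mul]

private theorem ls_contDiff (h : FBMS F) (α β ε : ℝ) :
    ContDiff ℝ ∞ (fun y => gfun α β ε (uu F y)) :=
  (contDiff_gfun α β ε).comp (contDiff_uu h.smooth)

private theorem ls_bdry (h : FBMS F) (α β ε : ℝ) {y : E} (hy : y ∈ bdry F) :
    gfun α β ε (uu F y) = 0 := by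
  rw [orth h hy, ls_zero]

private theorem ls_coord {y : E} (hy : y ∈ surf F) (i : Fin 3) : |y i| ≤ 1 :=
  (PiLp.norm_apply_le y i).trans hy.1

theorem lim_QGi (h : FBMS F) (α β : ℝ) (i : Fin 3) :
    Tendsto (fun n : ℕ => Q F (fun y => gfun α β (1 / ((n : ℝ) + 1)) (uu F y)) (fun y => y i)) atTop
      (𝓝 (-(α * area F (fun y => normA F y * (y i * max (uu F y) 0)) -
        β * area F (fun y => normA F y * (y i * max (-uu F y) 0))))) := by
  have hcu := (contDiff_uu h.smooth).continuous
  have hcn := (contDiff_normA h.smooth).continuous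
  have hci : Continuous fun y : E => y i := (contDiff_coord i).continuous
  have hcG : ∀ ε, Continuous (fun y => gfun α β ε (uu F y)) := fun ε =>
    (ls_contDiff h α β ε).continuous
  obtain ⟨M2, hM2⟩ := (isCompact_surf h).exists_bound_of_continuousOn hcn.continuousOn
  obtain ⟨M3, hM3⟩ := (isCompact_surf h).exists_bound_of_continuousOn hcu.continuousOn
  have e1 : ∀ n : ℕ, Q F (fun y => gfun α β (1 / ((n : ℝ) + 1)) (uu F y)) (fun y => y i) =
      -area F (fun y => normA F y * (y i * gfun α β (1 / ((n : ℝ) + 1)) (uu F y))) := by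
    intro n
    rw [Q_comm, Q_coord h i (ls_contDiff h _ _ _)]
  simp only [e1]
  have e2 : α * area F (fun y => normA F y * (y i * max (uu F y) 0)) -
      β * area F (fun y => normA F y * (y i * max (-uu F y) 0)) =
      area F (fun y => normA F y * (y i * (α * max (uu F y) 0 - β * max (-uu F y) 0))) := by
    rw [← area_const_mul, ← area_const_mul, ← area_sub h]
    · apply area_congr _ h
      intro y _
      ring
    · exact (continuous_const.mul (hcn.mul (hci.mul (hcu.max continuous_const)))).continuousOn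
    · exact (continuous_const.mul (hcn.mul (hci.mul (hcu.neg.max continuous_const)))).continuousOn
  rw [e2]
  refine Tendsto.neg (area_tendsto h _ _ (fun n => ?_) (M2 * (1 * ((|α| + 2 * |β|) * M3)))
    (fun n y hy => ?_) (fun y hy => ?_))
  · exact (hcn.mul (hci.mul (hcG _))).continuousOn
  · have b2 := hM2 y hy
    have b3 := hM3 y hy
    rw [Real.norm_eq_abs] at b2 b3
    have b6 := gfun_bound α β (1 / ((n : ℝ) + 1)) (uu F y)
    have b8 : |gfun α β (1 / ((n : ℝ) + 1)) (uu F y)| ≤ (|α| + 2 * |β|) * M3 :=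
      b6.trans (mul_le_mul_of_nonneg_left b3 (by positivity))
    rw [abs_mul, abs_mul]
    exact mul_le_mul b2 (mul_le_mul (ls_coord hy i) b8 (abs_nonneg _) zero_le_one)
      (mul_nonneg (abs_nonneg _) (abs_nonneg _)) ((abs_nonneg _).trans b2)
  · exact ((gfun_tendsto α β (uu F y)).const_mul (y i)).const_mul (normA F y)

theorem QG_pd (h : FBMS F) (α β ε : ℝ) (m : Fin 3) :
    Q F (fun y => gfun α β ε (uu F y)) (pd m F) = 0 := by
  rw [Q_comm, Q_pd h m (ls_contDiff h _ _ _)]
  rw [len_congr (g := fun _ => 0 * (0 : ℝ))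
    (fun y hy => by rw [ls_bdry h _ _ _ hy, mul_zero, zero_mul]) h, len_const_mul, zero_mul]

end Pool.Agent.Helper78.FB
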