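import Pool.Agent.Helper94.FB.Smooth
import Pool.Agent.Helper94.FB.MeanZero

/-!
# FS-10 NdSign: sign of the conormal derivative at a boundary point

Let `N : E` have the components `pd k F p` (`|N| = 1` by `grad_sq`, `∑ p_k N_k = 0` by `orth`, `‖p‖ = 1`). Let `0 < η < 1`. For small `t > 0` and `s = ± η t` the number `F ((1 - t) • p + s • N) = ± η t + o(t)` (`F p = 0`, the derivative of
`t ↦ F ((1 - t) • p ± (η t) • N)` at `0` is `- ∑ p_k N_k ± η ∑ N_k ^ 2 = ± η`, `hasDerivAt_comp`) has the sign of `s`. So for small `t > 0` the intermediate value theorem gives `s ∈ [- η t, η t]` with `F (q) = 0`, `q = (1 - t) • p + s • N`;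
`‖q‖ ^ 2 = (1 - t) ^ 2 + s ^ 2 ≤ (1 - t) ^ 2 + t ^ 2 < 1` for `0 < t < 1`, so `q ∈ inn F`, and `‖q - p‖ ≤ 2 t < ε`. So `f q ≤ 0`. As `f` is differentiable at `p`, `f q = - t * nd f p + s * ∑ N_k pd k f p + o(t)` (`fderiv_eq`,
`HasFDerivAt.isLittleO`), hence `- nd f p ≤ η * |∑ N_k pd k f p| + o(1)` as `t → 0`, and then `η → 0` gives `0 ≤ nd f p`.
(Alternative: argue by contradiction: if `nd f p < 0` choose `η` with `η * |∑ N_k pd k f p| < - nd f p / 2`.)
-/

set_option autoImplicit false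

open MeasureTheory Filter
open scoped ContDiff Topology

namespace Pool.Agent.Helper78.FB

variable {F : E → ℝ}

private theorem nds_lin {f : E → ℝ} (hf : ContDiff ℝ ∞ f) (p N : E) (t s : ℝ) :
    fderiv ℝ f p ((-t) • p + s • N) = -t * nd f p + s * ∑ k, N k * pd k f p := by
  rw [fderiv_eq hf]
  unfold nd
  rw [Finset.mul_sum, Finset.mul_sum, ← Finset.sum_add_distrib]
  refine Finset.sum_congr rfl fun k _ => ?_
  simp only [PiLp.add_apply, PiLp.smul_apply, smul_eq_mul]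
  ring

private theorem nds_o {f : E → ℝ} (hf : ContDiff ℝ ∞ f) {p : E} (h0 : f p = 0) {c : ℝ}
    (hc : 0 < c) : ∃ ρ : ℝ, 0 < ρ ∧ ∀ v : E, ‖v‖ < ρ → |f (p + v) - fderiv ℝ f p v| ≤ c * ‖v‖ := by
  have hd : HasFDerivAt f (fderiv ℝ f p) p :=
    (hf.differentiable (by simp) p).hasFDerivAt
  have h1 := hd.isLittleO.def hc
  obtain ⟨ρ, hρ, h2⟩ := Metric.eventually_nhds_iff.1 h1
  refine ⟨ρ, hρ, fun v hv => ?_⟩
  have h3 := h2 (y := p + v) (by rw [dist_eq_norm, add_sub_cancel_left]; exact hv)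
  rw [h0, sub_zero, add_sub_cancel_left, Real.norm_eq_abs] at h3
  exact h3

theorem nd_nonneg (h : FBMS F) {p : E} (hp : p ∈ bdry F) {f : E → ℝ} (hf : ContDiff ℝ ∞ f) (h0 : f p = 0)
    {ε : ℝ} (hε : 0 < ε) (hle : ∀ y ∈ inn F, y ∈ Metric.ball p ε → f y ≤ 0) : 0 ≤ nd f p := by
  by_contra hneg
  push Not at hneg
  obtain ⟨N, hN⟩ : ∃ N : E, ∀ k, N k = pd k F p := ⟨WithLp.toLp 2 fun k => pd k F p, fun k => rfl⟩
  have hps : p ∈ surf F := ⟨hp.1.le, hp.2⟩
  have hNN : ∑ k, N k * N k = 1 := by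
    rw [← grad_sq h hps]
    exact Finset.sum_congr rfl fun k _ => by rw [hN]; ring
  have hpN : ∑ k, p k * N k = 0 := by
    rw [← orth h hp]
    exact Finset.sum_congr rfl fun k _ => by rw [hN]
  have hpp : ∑ k, p k * p k = 1 := by
    have := EuclideanSpace.norm_sq_eq p
    rw [hp.1] at this
    rw [one_pow] at this
    rw [this]
    exact Finset.sum_congr rfl fun k _ => by rw [Real.norm_eq_abs, sq_abs]; ring
  have hNn : ‖N‖ = 1 := by
    have := EuclideanSpace.norm_sq_eq N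
    have h2 : ‖N‖ ^ 2 = 1 := by
      rw [this, ← hNN]
      exact Finset.sum_congr rfl fun k _ => by rw [Real.norm_eq_abs, sq_abs]; ring
    have h3 := norm_nonneg N
    nlinarith [h2, h3]
  obtain ⟨D, hD⟩ : ∃ D : ℝ, D = ∑ k, N k * pd k f p := ⟨_, rfl⟩
  obtain ⟨δ, hδ⟩ : ∃ δ : ℝ, δ = -nd f p := ⟨_, rfl⟩
  have hδ0 : 0 < δ := by linarith
  obtain ⟨η, hη0, hη1, hηD⟩ : ∃ η : ℝ, 0 < η ∧ η ≤ 1 ∧ η * |D| ≤ δ / 2 := by
    refine ⟨min 1 (δ / (2 * (|D| + 1))), lt_min one_pos (by positivity), min_le_left _ _, ?_⟩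
    have h1 : min 1 (δ / (2 * (|D| + 1))) * |D| ≤ δ / (2 * (|D| + 1)) * |D| :=
      mul_le_mul_of_nonneg_right (min_le_right _ _) (abs_nonneg _)
    have h2 : δ / (2 * (|D| + 1)) * |D| ≤ δ / 2 := by
      have h3 : 0 ≤ |D| := abs_nonneg _
      rw [div_mul_eq_mul_div, div_le_div_iff₀ (by positivity) (by norm_num)]
      nlinarith
    exact h1.trans h2
  obtain ⟨ρ1, hρ1, ho1⟩ := nds_o hf h0 (c := δ / 8) (by positivity)
  obtain ⟨ρ2, hρ2, ho2⟩ := nds_o h.smooth hp.2 (c := η / 4) (by positivity)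
  obtain ⟨t, ht0, ht1, htε, htρ1, htρ2⟩ : ∃ t : ℝ, 0 < t ∧ t < 1 ∧ 2 * t < ε ∧ 2 * t < ρ1 ∧
      2 * t < ρ2 := by
    refine ⟨min (min (1 / 2) (ε / 3)) (min (ρ1 / 3) (ρ2 / 3)), ?_, ?_, ?_, ?_, ?_⟩
    · exact lt_min (lt_min (by norm_num) (by positivity)) (lt_min (by positivity) (by positivity))
    · have h1 := min_le_left (min (1 / 2) (ε / 3)) (min (ρ1 / 3) (ρ2 / 3))
      have h2 := min_le_left (1 / 2) (ε / 3)
      linarith
    · have h1 := min_le_left (min (1 / 2) (ε / 3)) (min (ρ1 / 3) (ρ2 / 3))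
      have h2 := min_le_right (1 / 2) (ε / 3)
      linarith
    · have h1 := min_le_right (min (1 / 2) (ε / 3)) (min (ρ1 / 3) (ρ2 / 3))
      have h2 := min_le_left (ρ1 / 3) (ρ2 / 3)
      linarith
    · have h1 := min_le_right (min (1 / 2) (ε / 3)) (min (ρ1 / 3) (ρ2 / 3))
      have h2 := min_le_right (ρ1 / 3) (ρ2 / 3)
      linarith
  have hvn : ∀ s : ℝ, |s| ≤ η * t → ‖(-t) • p + s • N‖ ≤ 2 * t := by
    intro s hs
    have h1 : ‖(-t) • p + s • N‖ ≤ ‖(-t) • p‖ + ‖s • N‖ := norm_add_le _ _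
    rw [norm_smul, norm_smul, hp.1, hNn, mul_one, mul_one, Real.norm_eq_abs, Real.norm_eq_abs,
      abs_neg, abs_of_pos ht0] at h1
    have h2 : η * t ≤ 1 * t := mul_le_mul_of_nonneg_right hη1 ht0.le
    linarith
  have hFq : ∀ s : ℝ, |s| ≤ η * t → |F (p + ((-t) • p + s • N)) - s| ≤ η * t / 2 := by
    intro s hs
    have h1 := hvn s hs
    have h2 := ho2 _ (lt_of_le_of_lt h1 htρ2)
    rw [nds_lin h.smooth] at h2
    have h3 : nd F p = 0 := orth h hp
    have h4 : ∑ k, N k * pd k F p = 1 := by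
      rw [← hNN]
      exact Finset.sum_congr rfl fun k _ => by rw [hN]
    rw [h3, h4, mul_zero, zero_add, mul_one] at h2
    have h5 : η / 4 * ‖(-t) • p + s • N‖ ≤ η / 4 * (2 * t) :=
      mul_le_mul_of_nonneg_left h1 (by positivity)
    linarith
  obtain ⟨s, hs, hFs⟩ : ∃ s ∈ Set.Icc (-(η * t)) (η * t), F (p + ((-t) • p + s • N)) = 0 := by
    have hcont : Continuous fun s : ℝ => F (p + ((-t) • p + s • N)) := by
      have := h.smooth.continuous
      fun_prop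
    have hηt : 0 < η * t := by positivity
    have h1 := hFq (η * t) (by rw [abs_of_pos hηt])
    have h2 := hFq (-(η * t)) (by rw [abs_neg, abs_of_pos hηt])
    rw [abs_le] at h1 h2
    have h3 := intermediate_value_Icc (by linarith : -(η * t) ≤ η * t) hcont.continuousOn
    obtain ⟨s, hs, he⟩ := h3 (show (0 : ℝ) ∈ Set.Icc _ _ from ⟨by linarith, by linarith⟩)
    exact ⟨s, hs, he⟩
  have hsa : |s| ≤ η * t := abs_le.2 hs
  have hvs := hvn s hsa
  have hnorm : ‖p + ((-t) • p + s • N)‖ < 1 := by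
    have h1 := EuclideanSpace.norm_sq_eq (p + ((-t) • p + s • N))
    have h2 : ∑ k, ‖(p + ((-t) • p + s • N)) k‖ ^ 2 =
        (1 - t) ^ 2 * ∑ k, p k * p k + 2 * (1 - t) * s * ∑ k, p k * N k +
          s ^ 2 * ∑ k, N k * N k := by
      rw [Finset.mul_sum, Finset.mul_sum, Finset.mul_sum, ← Finset.sum_add_distrib,
        ← Finset.sum_add_distrib]
      refine Finset.sum_congr rfl fun k _ => ?_
      rw [Real.norm_eq_abs, sq_abs]
      simp only [PiLp.add_apply, PiLp.smul_apply, smul_eq_mul]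
      ring
    rw [h2, hpp, hpN, hNN] at h1
    have h3 : s ^ 2 ≤ t ^ 2 := by
      have h4 : |s| ≤ t := by
        have : η * t ≤ 1 * t := mul_le_mul_of_nonneg_right hη1 ht0.le
        linarith
      rw [← sq_abs s]
      exact pow_le_pow_left₀ (abs_nonneg _) h4 2
    have h5 := norm_nonneg (p + ((-t) • p + s • N))
    nlinarith [h1, h3, h5]
  have hq := hle (p + ((-t) • p + s • N)) ⟨hnorm, hFs⟩ (by
    rw [Metric.mem_ball, dist_eq_norm, add_sub_cancel_left]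
    exact lt_of_le_of_lt hvs htε)
  have ho := ho1 _ (lt_of_le_of_lt hvs htρ1)
  rw [nds_lin hf, ← hD] at ho
  have h6 : δ / 8 * ‖(-t) • p + s • N‖ ≤ δ / 8 * (2 * t) :=
    mul_le_mul_of_nonneg_left hvs (by positivity)
  have h7 : -(t * (δ / 2)) ≤ s * D := by
    have h8 : |s * D| ≤ t * (δ / 2) := by
      rw [abs_mul]
      calc |s| * |D| ≤ η * t * |D| := mul_le_mul_of_nonneg_right hsa (abs_nonneg _)
        _ = t * (η * |D|) := by ring
        _ ≤ t * (δ / 2) := mul_le_mul_of_nonneg_left hηD ht0.le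
    exact (abs_le.1 h8).1
  have h9 := (abs_le.1 ho).1
  have h10 : nd f p = -δ := by linarith
  rw [h10] at h9
  nlinarith [mul_pos ht0 hδ0]

end Pool.Agent.Helper78.FB
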