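import Pool.Agent.Helper94.FS.Gram
import Pool.Agent.Helper94.FS.NonDeg

/-!
# FS-03 NegGen: four negative directions and a lower bound of the second variation (no symmetry is assumed)

`zz = (1, y_0, y_1, y_2)`.
* `Q_neg4`: let `g = ∑ i, c i * zz i = c_0 + ∑ j, c_(j+1) y_j`. By `Q_green` (or bilinearity and `Q_one`, `Q_coord`): `lap F g = 0`, `nd g = g - c_0`, so `Q g g = - area (normA * g ^ 2) - c_0 * len g = - area (normA * g ^ 2) - c_0 ^ 2 * len 1` (`len_coord`).
  `len 1 = 2 area 1 > 0` (`len_one`, `area_pos`, `surf F` is not empty). If `c_0 ≠ 0` we are done. If `c_0 = 0`: `area (normA * g ^ 2) > 0`, otherwise `normA * g ^ 2 = 0` on `surf F` (`area_pos`); take `y0 ∈ surf F` with `normA ≠ 0` and, by `surf_subset`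
  and continuity, `z ∈ inn F` with `normA F z ≠ 0`; `V = {normA F ≠ 0}` is open and `g = 0` on `inn F ∩ V`: `flat_dir` gives `normA F z = 0`, a contradiction.
* `Q_lower`: `G i j = - Q (zz i) (zz j)` is a symmetric matrix with `∑ i j, c i c j G i j > 0` for `c ≠ 0` (`Q_neg4` and bilinearity, `Q_add_left`, `Q_const_mul_left`, `Q_comm`), so it is invertible (`Matrix.mulVec` injective; `B = G⁻¹`). Let `f` be smooth,
  `q i = Q f (zz i)`, `p = - B q`, `g = f - ∑ i, p i * zz i`. Then `Q g (zz j) = q j + ∑ i, p i G i j = 0` and `Q g g = Q f f - ∑ i, p i q i = Q f f + ∑ i j, B i j q i q j`. Claim: `0 ≤ Q g g`. Otherwise, for the five functions `zz 0, .., zz 3, g` and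
  `c ≠ 0`: `Q (∑ c_i zz i + c_4 g) (same) = Q (∑ c_i zz i) (same) + c_4 ^ 2 Q g g < 0`, against `IndexLeFour`. So `Q f f ≥ - ∑ B i j q i q j ≥ - C ∑ q i ^ 2` with `C = ∑ i j, |B i j|` (`|q i q j| ≤ ∑ k, q k ^ 2`). Compare `Q_nonneg` in `FB/NegDef.lean`.
-/

set_option autoImplicit false

open MeasureTheory Filter
open scoped ContDiff Topology

namespace Pool.Agent.Helper78.FB

variable {F : E → ℝ}

/-- The functions `1, y_0, y_1, y_2`. -/
noncomputable def zz : Fin 4 → E → ℝ := ![fun _ => 1, fun y => y 0, fun y => y 1, fun y => y 2]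

theorem contDiff_zz (i : Fin 4) : ContDiff ℝ ∞ (zz i) := by
  fin_cases i
  · exact contDiff_const
  · exact contDiff_coord 0
  · exact contDiff_coord 1
  · exact contDiff_coord 2

private theorem ng_sum (h : FBMS F) {ι : Type} (s : Finset ι) (c : ι → ℝ) (b : ι → E → ℝ)
    (hb : ∀ i, ContDiff ℝ ∞ (b i)) {w : E → ℝ} (hw : ContDiff ℝ ∞ w) :
    Q F (fun y => ∑ i ∈ s, c i * b i y) w = ∑ i ∈ s, c i * Q F (b i) w := by
  classical
  induction s using Finset.induction_on with
  | empty =>
    simp only [Finset.sum_empty]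
    have h1 := Q_const_mul_left h 0 hw hw
    simpa using h1
  | insert a s ha ih =>
    have e1 : (fun y => ∑ i ∈ insert a s, c i * b i y) =
        fun y => (c a * b a y) + ∑ i ∈ s, c i * b i y := by
      funext y
      rw [Finset.sum_insert ha]
    rw [e1, Q_add_left h (contDiff_const.mul (hb a))
      (ContDiff.sum fun i _ => contDiff_const.mul (hb i)) hw, Finset.sum_insert ha, ih,
      Q_const_mul_left h (c a) (hb a) hw]

private theorem ng_smooth (c : Fin 4 → ℝ) : ContDiff ℝ ∞ (fun y => ∑ i, c i * zz i y) :=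
  ContDiff.sum fun i _ => contDiff_const.mul (contDiff_zz i)

private theorem ng_expand (c : Fin 4 → ℝ) (y : E) :
    ∑ i, c i * zz i y = c 0 + ∑ j : Fin 3, c j.succ * y j := by
  rw [Fin.sum_univ_succ]
  have h0 : zz 0 y = 1 := rfl
  rw [h0, mul_one, Fin.sum_univ_three, Fin.sum_univ_three]
  rfl

private theorem ng_len4 (h : FBMS F) {f0 f1 f2 f3 : E → ℝ} (h0 : Continuous f0)
    (h1 : Continuous f1) (h2 : Continuous f2) (h3 : Continuous f3) :
    len F (fun y => f0 y + (f1 y + (f2 y + f3 y))) = len F f0 + (len F f1 + (len F f2 + len F f3)) := by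
  have c2 : Continuous fun y => f2 y + f3 y := h2.add h3
  have c1 : Continuous fun y => f1 y + (f2 y + f3 y) := h1.add c2
  rw [len_add h h0.continuousOn c1.continuousOn, len_add h h1.continuousOn c2.continuousOn,
    len_add h h2.continuousOn h3.continuousOn]

private theorem ng_area4 (h : FBMS F) {f0 f1 f2 f3 : E → ℝ} (h0 : Continuous f0)
    (h1 : Continuous f1) (h2 : Continuous f2) (h3 : Continuous f3) :
    area F (fun y => f0 y + (f1 y + (f2 y + f3 y))) =
      area F f0 + (area F f1 + (area F f2 + area F f3)) := by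
  have c2 : Continuous fun y => f2 y + f3 y := h2.add h3
  have c1 : Continuous fun y => f1 y + (f2 y + f3 y) := h1.add c2
  rw [area_add h h0.continuousOn c1.continuousOn, area_add h h1.continuousOn c2.continuousOn,
    area_add h h2.continuousOn h3.continuousOn]

/-- the integral of the normal part -/
private theorem ng_len (h : FBMS F) (c : Fin 4 → ℝ) :
    len F (fun y => ∑ i, c i * zz i y) = c 0 * len F (fun _ => 1) := by
  have hc : ∀ j : Fin 3, Continuous (fun y : E => y j) := fun j => (contDiff_coord j).continuous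
  have e1 : (fun y => ∑ i, c i * zz i y) = fun y : E => (c 0 * 1) + (c 1 * y 0 +
      (c 2 * y 1 + c 3 * y 2)) := by
    funext y
    rw [ng_expand, Fin.sum_univ_three]
    show c 0 + (c 1 * y 0 + c 2 * y 1 + c 3 * y 2) = _
    ring
  have k : ∀ (a : ℝ) (j : Fin 3), Continuous fun y : E => a * y j :=
    fun a j => continuous_const.mul (hc j)
  have k0 : Continuous fun _ : E => c 0 * 1 := continuous_const
  have e2 := ng_len4 h k0 (k (c 1) 0) (k (c 2) 1) (k (c 3) 2)
  rw [e1, e2, len_const_mul, len_const_mul, len_const_mul, len_const_mul, len_coord h 0,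
    len_coord h 1, len_coord h 2]
  ring

/-- the formula for `Q g g` -/
private theorem ng_formula (h : FBMS F) (c : Fin 4 → ℝ) {w : E → ℝ} (hw : ContDiff ℝ ∞ w) :
    Q F (fun y => ∑ i, c i * zz i y) w =
      -area F (fun y => normA F y * ((∑ i, c i * zz i y) * w y)) - c 0 * len F w := by
  have hA : Continuous (normA F) := (contDiff_normA h.smooth).continuous
  have hcw : Continuous w := hw.continuous
  have hc : ∀ j : Fin 3, Continuous (fun y : E => y j) := fun j => (contDiff_coord j).continuous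
  have k0 : Continuous fun y => c 0 * (normA F y * w y) := continuous_const.mul (hA.mul hcw)
  have kj : ∀ (a : ℝ) (j : Fin 3), Continuous fun y => a * (normA F y * (y j * w y)) :=
    fun a j => continuous_const.mul (hA.mul ((hc j).mul hcw))
  rw [ng_sum h Finset.univ c zz contDiff_zz hw]
  rw [Fin.sum_univ_four]
  have q0 : Q F (zz 0) w = -area F (fun y => normA F y * w y) - len F w := Q_one h hw
  have q1 : Q F (zz 1) w = -area F (fun y => normA F y * (y 0 * w y)) := Q_coord h 0 hw
  have q2 : Q F (zz 2) w = -area F (fun y => normA F y * (y 1 * w y)) := Q_coord h 1 hw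
  have q3 : Q F (zz 3) w = -area F (fun y => normA F y * (y 2 * w y)) := Q_coord h 2 hw
  rw [q0, q1, q2, q3]
  have e1 : (fun y => normA F y * ((∑ i, c i * zz i y) * w y)) =
      fun y : E => c 0 * (normA F y * w y) + (c 1 * (normA F y * (y 0 * w y)) +
        (c 2 * (normA F y * (y 1 * w y)) + c 3 * (normA F y * (y 2 * w y)))) := by
    funext y
    rw [ng_expand, Fin.sum_univ_three]
    show normA F y * ((c 0 + (c 1 * y 0 + c 2 * y 1 + c 3 * y 2)) * w y) = _
    ring
  have e2 := ng_area4 h k0 (kj (c 1) 0) (kj (c 2) 1) (kj (c 3) 2)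
  rw [e1, e2, area_const_mul, area_const_mul, area_const_mul, area_const_mul]
  ring

theorem Q_neg4 (h : FBMS F) (hn : ∃ y ∈ surf F, normA F y ≠ 0) {c : Fin 4 → ℝ} (hc : c ≠ 0) :
    Q F (fun y => ∑ i, c i * zz i y) (fun y => ∑ i, c i * zz i y) < 0 := by
  have hA : Continuous (normA F) := (contDiff_normA h.smooth).continuous
  have hg := ng_smooth c
  rw [ng_formula h c hg, ng_len h c]
  have hnn : ∀ y ∈ surf F, 0 ≤ normA F y * ((∑ i, c i * zz i y) * (∑ i, c i * zz i y)) :=
    fun y _ => mul_nonneg (normA_nonneg y) (mul_self_nonneg _)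
  have h1 := area_nonneg h hnn
  obtain ⟨y0, hy0, hy0'⟩ := hn
  have hlen : 0 < len F (fun _ => 1) := by
    rw [len_one h]
    have := area_pos h (f := fun _ => 1) continuous_const.continuousOn (fun _ _ => zero_le_one)
      hy0 zero_lt_one
    linarith
  by_cases hc0 : c 0 = 0
  · rw [hc0, zero_mul, sub_zero]
    have hex : ∃ z ∈ surf F, 0 < normA F z * ((∑ i, c i * zz i z) * (∑ i, c i * zz i z)) := by
      by_contra hcon
      push Not at hcon
      have hy : 0 < normA F y0 := lt_of_le_of_ne (normA_nonneg y0) hy0'.symm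
      have hV : IsOpen {x : E | 0 < normA F x} := isOpen_lt continuous_const hA
      obtain ⟨z, hzV, hz⟩ := mem_closure_iff.1 (surf_subset h hy0) _ hV hy
      have hc' : (fun j : Fin 3 => c j.succ) ≠ 0 := by
        intro h3
        apply hc
        funext i
        refine Fin.cases ?_ (fun j => ?_) i
        · exact hc0
        · exact congrFun h3 j
      have h4 : normA F z = 0 := by
        refine flat_dir h hc' hz _ hV hzV fun x hx hxV => ?_
        have h2 := hcon x ⟨hx.1.le, hx.2⟩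
        have h3 : 0 < normA F x := hxV
        rw [ng_expand, hc0, zero_add] at h2
        by_contra h5
        have h6 : 0 < (∑ j : Fin 3, c j.succ * x j) * (∑ j : Fin 3, c j.succ * x j) :=
          mul_self_pos.2 h5
        have h7 := mul_pos h3 h6
        linarith
      have h5 : 0 < normA F z := hzV
      linarith
    obtain ⟨z, hz, hz'⟩ := hex
    have hcont : Continuous fun y => normA F y * ((∑ i, c i * zz i y) * (∑ i, c i * zz i y)) :=
      hA.mul (hg.continuous.mul hg.continuous)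
    have h2 := area_pos h hcont.continuousOn hnn hz hz'
    linarith
  · have h2 : 0 < c 0 * (c 0 * len F (fun _ => 1)) := by
      rw [← mul_assoc]
      exact mul_pos (mul_self_pos.2 hc0) hlen
    linarith

/-- the index bound: the form is nonnegative on the functions orthogonal to the four -/
private theorem ng_nonneg (h : FBMS F) (hn : ∃ y ∈ surf F, normA F y ≠ 0) (hi : IndexLeFour F)
    {g : E → ℝ} (hg : ContDiff ℝ ∞ g) (h0 : ∀ j, Q F g (zz j) = 0) : 0 ≤ Q F g g := by
  by_contra hneg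
  rw [not_le] at hneg
  have hbs : ∀ i : Fin 5, ContDiff ℝ ∞ ((Fin.snoc zz g : Fin 5 → E → ℝ) i) := by
    intro i
    refine Fin.lastCases ?_ (fun j => ?_) i
    · rw [Fin.snoc_last]
      exact hg
    · rw [Fin.snoc_castSucc]
      exact contDiff_zz j
  obtain ⟨c, hc, hc'⟩ := hi _ hbs
  have e1 : (fun y => ∑ i, c i * (Fin.snoc zz g : Fin 5 → E → ℝ) i y) =
      fun y => (fun y => ∑ i : Fin 4, c i.castSucc * zz i y) y + c (Fin.last 4) * g y := by
    funext y
    have e3 : ∀ i : Fin 4, (Fin.snoc zz g : Fin 5 → E → ℝ) i.castSucc = zz i := fun i =>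
      Fin.snoc_castSucc (α := fun _ => E → ℝ) _ _ _
    rw [Fin.sum_univ_castSucc, Fin.snoc_last]
    simp only [e3]
  have hs4 := ng_smooth (fun i : Fin 4 => c i.castSucc)
  rw [e1, Q_line h _ hs4 hg] at hc'
  have e2 : Q F (fun y => ∑ i : Fin 4, c i.castSucc * zz i y) g = 0 := by
    rw [ng_sum h Finset.univ (fun i : Fin 4 => c i.castSucc) zz contDiff_zz hg]
    refine Finset.sum_eq_zero fun i _ => ?_
    rw [Q_comm, h0 i, mul_zero]
  rw [e2] at hc'
  by_cases h4 : (fun i : Fin 4 => c i.castSucc) = 0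
  · have hl : c (Fin.last 4) ≠ 0 := by
      intro hl
      apply hc
      funext i
      refine Fin.lastCases ?_ (fun j => ?_) i
      · exact hl
      · exact congrFun h4 j
    have e3 : Q F (fun y => ∑ i : Fin 4, c i.castSucc * zz i y)
        (fun y => ∑ i : Fin 4, c i.castSucc * zz i y) = 0 := by
      rw [ng_sum h Finset.univ (fun i : Fin 4 => c i.castSucc) zz contDiff_zz hs4]
      refine Finset.sum_eq_zero fun i _ => ?_
      have : c i.castSucc = 0 := congrFun h4 i
      rw [this, zero_mul]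
    rw [e3] at hc'
    have h5 : 0 < c (Fin.last 4) ^ 2 := by positivity
    have h6 := mul_neg_of_pos_of_neg h5 hneg
    linarith
  · have h5 := Q_neg4 h hn h4
    have h6 : c (Fin.last 4) ^ 2 * Q F g g ≤ 0 :=
      mul_nonpos_of_nonneg_of_nonpos (sq_nonneg _) hneg.le
    linarith

private theorem ng_bound (B : Matrix (Fin 4) (Fin 4) ℝ) (q : Fin 4 → ℝ) :
    ∑ i, (B.mulVec q) i * q i ≤ (∑ i, ∑ j, |B i j|) * ∑ k, q k ^ 2 := by
  rw [Finset.sum_mul]
  refine Finset.sum_le_sum fun i _ => ?_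
  show (∑ j, B i j * q j) * q i ≤ _
  rw [Finset.sum_mul, Finset.sum_mul]
  refine Finset.sum_le_sum fun j _ => ?_
  have h1 : q i ^ 2 ≤ ∑ k, q k ^ 2 :=
    Finset.single_le_sum (f := fun k => q k ^ 2) (fun k _ => sq_nonneg (q k)) (Finset.mem_univ i)
  have h2 : q j ^ 2 ≤ ∑ k, q k ^ 2 :=
    Finset.single_le_sum (f := fun k => q k ^ 2) (fun k _ => sq_nonneg (q k)) (Finset.mem_univ j)
  have h3 : |q j * q i| ≤ ∑ k, q k ^ 2 := by
    rw [abs_le]
    constructor <;> nlinarith [sq_nonneg (q i + q j), sq_nonneg (q i - q j)]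
  calc B i j * q j * q i ≤ |B i j * q j * q i| := le_abs_self _
    _ = |B i j| * |q j * q i| := by rw [mul_assoc, abs_mul]
    _ ≤ |B i j| * ∑ k, q k ^ 2 := mul_le_mul_of_nonneg_left h3 (abs_nonneg _)

theorem Q_lower (h : FBMS F) (hn : ∃ y ∈ surf F, normA F y ≠ 0) (hi : IndexLeFour F) :
    ∃ C : ℝ, 0 ≤ C ∧ ∀ f : E → ℝ, ContDiff ℝ ∞ f → -C * ∑ i, Q F f (zz i) ^ 2 ≤ Q F f f := by
  classical
  obtain ⟨G, hG⟩ : ∃ G : Matrix (Fin 4) (Fin 4) ℝ, ∀ i j, G i j = -Q F (zz i) (zz j) :=
    ⟨Matrix.of fun i j => -Q F (zz i) (zz j), fun i j => rfl⟩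
  have hmul : ∀ (c : Fin 4 → ℝ) (i : Fin 4),
      (G.mulVec c) i = -Q F (fun y => ∑ j, c j * zz j y) (zz i) := by
    intro c i
    rw [ng_sum h Finset.univ c zz contDiff_zz (contDiff_zz i), ← Finset.sum_neg_distrib]
    show ∑ j, G i j * c j = _
    refine Finset.sum_congr rfl fun j _ => ?_
    rw [hG, Q_comm (zz i) (zz j)]
    ring
  have hdet : IsUnit G.det := by
    rw [isUnit_iff_ne_zero]
    intro hdet
    obtain ⟨c, hc, hc0⟩ := Matrix.exists_mulVec_eq_zero_iff.2 hdet
    have h1 := Q_neg4 h hn hc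
    rw [ng_sum h Finset.univ c zz contDiff_zz (ng_smooth c)] at h1
    have h2 : ∑ i, c i * Q F (zz i) (fun y => ∑ i, c i * zz i y) = 0 := by
      refine Finset.sum_eq_zero fun i _ => ?_
      have h3 := congrFun hc0 i
      rw [hmul c i, Pi.zero_apply, neg_eq_zero] at h3
      rw [Q_comm, h3, mul_zero]
    linarith
  refine ⟨∑ i, ∑ j, |G⁻¹ i j|, Finset.sum_nonneg fun i _ => Finset.sum_nonneg fun j _ =>
    abs_nonneg _, ?_⟩
  intro f hf
  obtain ⟨q, hq⟩ : ∃ q : Fin 4 → ℝ, ∀ i, q i = Q F f (zz i) := ⟨fun i => Q F f (zz i), fun i => rfl⟩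
  obtain ⟨p, hp⟩ : ∃ p : Fin 4 → ℝ, p = G⁻¹.mulVec q := ⟨_, rfl⟩
  have hGp : G.mulVec p = q := by
    rw [hp, Matrix.mulVec_mulVec, Matrix.mul_nonsing_inv _ hdet, Matrix.one_mulVec]
  have hps := ng_smooth p
  have hg : ContDiff ℝ ∞ (fun y => f y + ∑ i, p i * zz i y) := hf.add hps
  have key : ∀ w : E → ℝ, ContDiff ℝ ∞ w →
      Q F (fun y => f y + ∑ i, p i * zz i y) w = Q F f w + ∑ i, p i * Q F (zz i) w := by
    intro w hw
    rw [Q_add_left h hf hps hw, ng_sum h Finset.univ p zz contDiff_zz hw]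
  have h0 : ∀ j, Q F (fun y => f y + ∑ i, p i * zz i y) (zz j) = 0 := by
    intro j
    rw [Q_add_left h hf hps (contDiff_zz j), ← hq j]
    have h1 := hmul p j
    rw [hGp] at h1
    linarith
  have h1 := ng_nonneg h hn hi hg h0
  have h2 : Q F (fun y => f y + ∑ i, p i * zz i y) (fun y => f y + ∑ i, p i * zz i y) =
      Q F f f + ∑ i, p i * q i := by
    rw [key _ hg]
    have h3 : ∑ i, p i * Q F (zz i) (fun y => f y + ∑ i, p i * zz i y) = 0 := by
      refine Finset.sum_eq_zero fun i _ => ?_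
      rw [Q_comm, h0 i, mul_zero]
    rw [h3, add_zero, Q_comm, key _ hf]
    congr 1
    refine Finset.sum_congr rfl fun i _ => ?_
    rw [hq i, Q_comm]
  rw [h2] at h1
  have h3 := ng_bound G⁻¹ q
  rw [← hp] at h3
  have h4 : ∑ i, Q F f (zz i) ^ 2 = ∑ k, q k ^ 2 :=
    Finset.sum_congr rfl fun i _ => by rw [hq i]
  rw [h4]
  linarith

end Pool.Agent.Helper78.FB
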