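import Pool.Agent.Helper94.FB.NegF

/-!
# FS-07b NegS: the hypotheses for `- F` (no symmetry is assumed)

From `FB/NegF.lean` (proved by helper21).
-/

set_option autoImplicit false

open MeasureTheory Filter Set
open scoped ContDiff Topology

namespace Pool.Agent.Helper78.FB

variable {F : E → ℝ}

private theorem pd_negS (hF : ContDiff ℝ ∞ F) (i : Fin 3) : pd i (fun y => -F y) = fun y => -pd i F y :=
  pd_neg i hF

private theorem pd2_negS (hF : ContDiff ℝ ∞ F) (i j : Fin 3) :
    pd i (pd j (fun y => -F y)) = fun y => -pd i (pd j F) y := by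
  rw [pd_negS hF, pd_neg i (contDiff_pd j hF)]

private theorem normA_negS (hF : ContDiff ℝ ∞ F) (y : E) : normA (fun y => -F y) y = normA F y := by
  unfold normA
  simp only [pd2_negS hF, neg_sq]

private theorem divS_negS (hF : ContDiff ℝ ∞ F) (X : Fin 3 → E → ℝ) :
    divS (fun y => -F y) X = divS F X := by
  funext y
  unfold divS
  simp only [pd_negS hF, neg_mul_neg]

private theorem tang_negS (hF : ContDiff ℝ ∞ F) (f g : E → ℝ) (y : E) :
    tang (fun y => -F y) f g y = tang F f g y := by
  unfold tang
  simp only [pd_negS hF, neg_mul, Finset.sum_neg_distrib, mul_neg, neg_neg]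

private theorem surf_negS (F : E → ℝ) : surf (fun y => -F y) = surf F := by
  ext y
  simp [surf]

private theorem bdry_negS (F : E → ℝ) : bdry (fun y => -F y) = bdry F := by
  ext y
  simp [bdry]

private theorem area_negS (F f : E → ℝ) : area (fun y => -F y) f = area F f := by
  unfold area
  rw [surf_negS]

private theorem len_negS (F f : E → ℝ) : len (fun y => -F y) f = len F f := by
  unfold len
  rw [bdry_negS]

private theorem Q_negS (hF : ContDiff ℝ ∞ F) (f g : E → ℝ) :
    Q (fun y => -F y) f g = Q F f g := by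
  unfold Q
  rw [area_negS, len_negS]
  simp only [tang_negS hF, normA_negS hF]

theorem normA_neg_s (hF : ContDiff ℝ ∞ F) (y : E) : normA (fun y => -F y) y = normA F y := normA_negS hF y

theorem uu_neg_s (hF : ContDiff ℝ ∞ F) (y : E) : uu (fun y => -F y) y = -uu F y := by
  unfold uu
  simp only [pd_negS hF, mul_neg, Finset.sum_neg_distrib]

theorem fbms_neg (h : FBMS F) : FBMS (fun y => -F y) := by
  have hF := h.smooth
  refine ⟨hF.neg, ?_, ?_, ?_, ?_, ?_⟩
  · obtain ⟨U, hU, hs, h1⟩ := h.unit
    refine ⟨U, hU, by rw [surf_negS]; exact hs, fun y hy => ?_⟩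
    rw [← h1 y hy]
    simp only [pd_negS hF, neg_sq]
  · intro y hy
    rw [bdry_negS] at hy
    have h1 := h.transverse y hy
    simp only [pd_negS hF, mul_neg, Finset.sum_neg_distrib, neg_sq]
    exact h1
  · rw [surf_negS]
    exact h.finArea
  · rw [bdry_negS]
    exact h.finLen
  · intro X hX
    rw [divS_negS hF, area_negS, len_negS]
    exact h.firstVar X hX

theorem index_neg (hF : ContDiff ℝ ∞ F) (hi : IndexLeFour F) : IndexLeFour (fun y => -F y) := by
  intro f hf
  obtain ⟨c, hc, h1⟩ := hi f hf
  refine ⟨c, hc, ?_⟩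
  rw [Q_negS hF]
  exact h1

end Pool.Agent.Helper78.FB
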