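import Pool.Agent.Helper94.FB.Cross
import Pool.Agent.Helper94.FB.MeanZero

/-!
# FS-08 RaysS: the surface on the rays from the origin when the support function is positive (no symmetry is assumed)

The file `FB/Rays.lean` (proved by helper47) with the weaker hypothesis `HypR`.
-/

set_option autoImplicit false

open MeasureTheory Filter Set
open scoped ContDiff Topology

namespace Pool.Agent.Helper78.FB

/-- `surf F` is a free boundary minimal surface with interior points. -/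
structure HypR (F : E → ℝ) : Prop where
  fb : FBMS F
  ne : (inn F).Nonempty

variable {F : E → ℝ}

/-- the derivative along the ray -/
private noncomputable def gp (F : E → ℝ) (θ : E) (x : ℝ) : ℝ := ∑ k, θ k * pd k F (x • θ)

private theorem ry_d (H : HypR F) (θ : E) (x : ℝ) : HasDerivAt (fun t : ℝ => F (t • θ)) (gp F θ x) x := by
  have h : HasDerivAt (fun t : ℝ => t • θ) θ x := by
    have h1 := (hasDerivAt_id x).smul_const θ
    simpa using h1
  exact hasDerivAt_comp H.fb.smooth (fun t : ℝ => t • θ) θ x h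

private theorem ry_cont (H : HypR F) (θ : E) : Continuous (fun t : ℝ => F (t • θ)) :=
  H.fb.smooth.continuous.comp (continuous_id.smul continuous_const)

private theorem ry_c (H : HypR F) (θ : E) (s t : ℝ) : ContinuousOn (fun t : ℝ => F (t • θ)) (Icc s t) :=
  (ry_cont H θ).continuousOn

private theorem ry_uu (θ : E) (x : ℝ) : uu F (x • θ) = x * gp F θ x := by
  simp only [uu, gp, Finset.mul_sum]
  refine Finset.sum_congr rfl fun k _ => ?_
  have e : (x • θ) k = x * θ k := rfl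
  rw [e]
  ring

private theorem ry_z (hu : ∀ y ∈ inn F, 0 < uu F y) {θ : E} (hθ : ‖θ‖ = 1) {x : ℝ} (hx : x ∈ Ioo (0 : ℝ) 1)
    (h0 : F (x • θ) = 0) : 0 < gp F θ x := by
  have hin : x • θ ∈ inn F := by
    refine ⟨?_, h0⟩
    rw [norm_smul, hθ, mul_one, Real.norm_eq_abs, abs_of_pos hx.1]
    exact hx.2
  have h1 := hu _ hin
  rw [ry_uu] at h1
  exact (mul_pos_iff_of_pos_left hx.1).1 h1

private theorem ry_norm {y : E} (hy : y ≠ 0) : ‖‖y‖⁻¹ • y‖ = 1 := by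
  rw [norm_smul, norm_inv, norm_norm, inv_mul_cancel₀ (norm_ne_zero_iff.2 hy)]

private theorem ry_back {y : E} (hy : y ≠ 0) : ‖y‖ • (‖y‖⁻¹ • y) = y := by
  rw [smul_smul, mul_inv_cancel₀ (norm_ne_zero_iff.2 hy), one_smul]

theorem F_zero_neg_s (H : HypR F) (hu : ∀ y ∈ inn F, 0 < uu F y) : F 0 < 0 := by
  rcases lt_trichotomy (F 0) 0 with h | h | h
  · exact h
  · exfalso
    have h1 : (0 : E) ∈ inn F := ⟨by rw [norm_zero]; exact one_pos, h⟩
    have h2 := hu _ h1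
    have h3 : uu F (0 : E) = 0 := by
      simp only [uu]
      refine Finset.sum_eq_zero fun k _ => ?_
      have e : (0 : E) k = 0 := rfl
      rw [e, zero_mul]
    rw [h3] at h2
    exact lt_irrefl _ h2
  · exfalso
    obtain ⟨y, hy1, hy0⟩ := H.ne
    have hy : y ≠ 0 := by
      rintro rfl
      rw [hy0] at h
      exact lt_irrefl _ h
    have h1 := cross_right (g := fun t : ℝ => F (t • (‖y‖⁻¹ • y))) (g' := gp F (‖y‖⁻¹ • y))
      (ry_c H _ 0 1) (fun x _ => ry_d H _ x) (fun x hx => ry_z hu (ry_norm hy) hx)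
      (by simpa using h) ‖y‖ ⟨norm_nonneg y, hy1⟩
    have h2 : 0 < F (‖y‖ • (‖y‖⁻¹ • y)) := h1
    rw [ry_back hy, hy0] at h2
    exact lt_irrefl _ h2

private theorem ry_zero (H : HypR F) (hu : ∀ y ∈ inn F, 0 < uu F y) {θ : E} (hθ : ‖θ‖ = 1) {s : ℝ}
    (hs : s ∈ Ioo (0 : ℝ) 1) (h1 : F (s • θ) = 0) : ∀ x ∈ Ioo s 1, 0 < F (x • θ) :=
  (cross_zero (g := fun t : ℝ => F (t • θ)) (g' := gp F θ) (ry_c H _ 0 1) (fun x _ => ry_d H _ x)
    (fun _ hx => ry_z hu hθ hx) hs h1).1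

theorem ray_unique_s (H : HypR F) (hu : ∀ y ∈ inn F, 0 < uu F y) {θ : E} (hθ : ‖θ‖ = 1) {s t : ℝ}
    (hs : s ∈ Ioo (0 : ℝ) 1) (ht : t ∈ Ioo (0 : ℝ) 1) (h1 : F (s • θ) = 0) (h2 : F (t • θ) = 0) : s = t := by
  rcases lt_trichotomy s t with h | h | h
  · have h3 := ry_zero H hu hθ hs h1 t ⟨h, ht.2⟩
    rw [h2] at h3
    exact absurd h3 (lt_irrefl _)
  · exact h
  · have h3 := ry_zero H hu hθ ht h2 s ⟨h, hs.2⟩
    rw [h1] at h3
    exact absurd h3 (lt_irrefl _)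

/-- positive on `[s, 1)` gives nonnegative at `1` -/
private theorem ry_end (H : HypR F) {θ : E} {s : ℝ} (hs : s < 1) (h : ∀ x ∈ Ioo s 1, 0 < F (x • θ)) : 0 ≤ F θ := by
  have h1 : Tendsto (fun t : ℝ => F (t • θ)) (𝓝[<] 1) (𝓝 (F ((1 : ℝ) • θ))) :=
    ((ry_cont H θ).tendsto 1).mono_left nhdsWithin_le_nhds
  rw [one_smul] at h1
  refine ge_of_tendsto h1 ?_
  filter_upwards [Ioo_mem_nhdsLT hs] with x hx
  exact (h x hx).le

/-- the great circle through `θ` in the direction `-N` -/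
private noncomputable def ry_g (θ N : E) (e : ℝ) : E := Real.cos e • θ - Real.sin e • N

private theorem ry_g_norm {θ N : E} (hθ : ∑ k, θ k ^ 2 = 1) (hN : ∑ k, N k ^ 2 = 1) (ho : ∑ k, θ k * N k = 0)
    (e : ℝ) : ‖ry_g θ N e‖ = 1 := by
  have h1 : ‖ry_g θ N e‖ ^ 2 = 1 := by
    rw [norm_sq]
    have h2 : ∀ k, ry_g θ N e k = Real.cos e * θ k - Real.sin e * N k := fun k => rfl
    simp only [h2, Fin.sum_univ_three] at hθ hN ho ⊢
    have h3 := Real.sin_sq_add_cos_sq e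
    linear_combination Real.cos e ^ 2 * hθ + Real.sin e ^ 2 * hN - 2 * Real.sin e * Real.cos e * ho + h3
  have h2 := norm_nonneg (ry_g θ N e)
  nlinarith

private theorem ry_g_d (θ N : E) : HasDerivAt (ry_g θ N) (-N) 0 := by
  have h1 : HasDerivAt (fun e : ℝ => Real.cos e • θ) ((-Real.sin 0) • θ) 0 :=
    (Real.hasDerivAt_cos 0).smul_const θ
  have h2 : HasDerivAt (fun e : ℝ => Real.sin e • N) ((Real.cos 0) • N) 0 :=
    (Real.hasDerivAt_sin 0).smul_const N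
  have h3 := h1.sub h2
  have e : (-Real.sin 0) • θ - (Real.cos 0) • N = -N := by
    rw [Real.sin_zero, Real.cos_zero, neg_zero, zero_smul, one_smul, zero_sub]
  rw [e] at h3
  exact h3

private theorem ry_g_zero (θ N : E) : ry_g θ N 0 = θ := by
  simp [ry_g]

theorem ray_pos_of_zero_s (H : HypR F) (hu : ∀ y ∈ inn F, 0 < uu F y) {θ : E} (hθ : ‖θ‖ = 1) {t : ℝ}
    (ht : t ∈ Ioo (0 : ℝ) 1) (h0 : F (t • θ) = 0) : 0 < F θ := by
  have hpos := ry_zero H hu hθ ht h0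
  refine lt_of_le_of_ne (ry_end H ht.2 hpos) fun hz => ?_
  have hb : θ ∈ bdry F := ⟨hθ, hz.symm⟩
  have hsu : θ ∈ surf F := ⟨hθ.le, hz.symm⟩
  set N : E := WithLp.toLp 2 (fun k => pd k F θ) with hNdef
  have hNk : ∀ k, N k = pd k F θ := fun k => rfl
  have hN : ∑ k, N k ^ 2 = 1 := grad_sq H.fb hsu
  have ho : ∑ k, θ k * N k = 0 := orth H.fb hb
  have hθ2 : ∑ k, θ k ^ 2 = 1 := by rw [← norm_sq, hθ, one_pow]
  have hgn := ry_g_norm hθ2 hN ho
  -- the derivative along the circle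
  have hd : HasDerivAt (fun e => F (ry_g θ N e)) (-1) 0 := by
    have h1 := hasDerivAt_comp H.fb.smooth (ry_g θ N) (-N) 0 (ry_g_d θ N)
    have e : ∑ k, (-N) k * pd k F (ry_g θ N 0) = -1 := by
      rw [ry_g_zero, ← hN, ← Finset.sum_neg_distrib]
      refine Finset.sum_congr rfl fun k _ => ?_
      have e1 : (-N) k = -(N k) := rfl
      rw [e1, hNk]
      ring
    rw [e] at h1
    exact h1
  have hneg : ∀ᶠ e in 𝓝[>] (0 : ℝ), F (ry_g θ N e) < 0 := by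
    have h1 := (hasDerivAt_iff_tendsto_slope.1 hd).mono_left
      (nhdsWithin_mono (0 : ℝ) (fun x (hx : 0 < x) => (ne_of_gt hx : x ≠ 0)))
    have h2 := h1.eventually (gt_mem_nhds (show (-1 : ℝ) < 0 by norm_num))
    filter_upwards [h2, self_mem_nhdsWithin] with e he hpe
    have hpe' : (0 : ℝ) < e := hpe
    rw [slope_def_field, ry_g_zero, ← hz, sub_zero, sub_zero] at he
    by_contra hc
    exact absurd he (not_lt.2 (div_nonneg (not_lt.1 hc) hpe'.le))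
  -- positivity at `t1`
  obtain ⟨t1, h1, h1'⟩ := exists_between ht.2
  have hgc : Continuous (ry_g θ N) :=
    (Real.continuous_cos.smul continuous_const).sub (Real.continuous_sin.smul continuous_const)
  have hc1 : Continuous fun e => F (t1 • ry_g θ N e) :=
    H.fb.smooth.continuous.comp (hgc.const_smul t1)
  have hpt : ∀ᶠ e in 𝓝[>] (0 : ℝ), 0 < F (t1 • ry_g θ N e) := by
    have h2 : Tendsto (fun e => F (t1 • ry_g θ N e)) (𝓝[>] (0 : ℝ)) (𝓝 (F (t1 • θ))) := by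
      have h3 := (hc1.tendsto 0).mono_left (nhdsWithin_le_nhds (s := Ioi (0 : ℝ)))
      rwa [ry_g_zero] at h3
    exact h2.eventually (lt_mem_nhds (hpos t1 ⟨h1, h1'⟩))
  obtain ⟨e, he1, he2⟩ := (hneg.and hpt).exists
  have h3 : ∀ x ∈ Ioo t1 1, 0 < F (x • ry_g θ N e) := by
    intro x hx
    exact cross_right (g := fun t : ℝ => F (t • ry_g θ N e)) (g' := gp F (ry_g θ N e)) (ry_c H _ t1 1)
      (fun x _ => ry_d H _ x) (fun x hx => ry_z hu (hgn e) ⟨(ht.1.trans h1).trans hx.1, hx.2⟩) he2 x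
      ⟨hx.1.le, hx.2⟩
  exact absurd (ry_end H h1' h3) (not_le.2 he1)

theorem ray_zero_of_pos_s (H : HypR F) (hu : ∀ y ∈ inn F, 0 < uu F y) {θ : E} (hθ : ‖θ‖ = 1) (h0 : 0 < F θ) :
    ∃ t ∈ Ioo (0 : ℝ) 1, F (t • θ) = 0 := by
  have h1 := intermediate_value_Ioo (zero_le_one' ℝ) (ry_c H θ 0 1)
  have h2 : (0 : ℝ) ∈ Ioo (F ((0 : ℝ) • θ)) (F ((1 : ℝ) • θ)) := by
    rw [zero_smul, one_smul]
    exact ⟨F_zero_neg_s H hu, h0⟩
  obtain ⟨t, ht, ht0⟩ := h1 h2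
  exact ⟨t, ht, ht0⟩

theorem ray_of_pos_s (H : HypR F) (hu : ∀ y ∈ inn F, 0 < uu F y) {θ : E} (hθ : ‖θ‖ = 1) {r : ℝ}
    (hr : r ∈ Ioo (0 : ℝ) 1) (h0 : 0 < F (r • θ)) : 0 < F θ := by
  have h1 := intermediate_value_Ioo hr.1.le (ry_c H θ 0 r)
  have h2 : (0 : ℝ) ∈ Ioo (F ((0 : ℝ) • θ)) (F (r • θ)) := by
    rw [zero_smul]
    exact ⟨F_zero_neg_s H hu, h0⟩
  obtain ⟨t, ht, ht0⟩ := h1 h2
  exact ray_pos_of_zero_s H hu hθ ⟨ht.1, ht.2.trans hr.2⟩ ht0

theorem ray_neg_s (H : HypR F) (hu : ∀ y ∈ inn F, 0 < uu F y) {θ : E} (hθ : ‖θ‖ = 1) (h0 : F θ ≤ 0) {t : ℝ}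
    (ht : t ∈ Ico (0 : ℝ) 1) : F (t • θ) < 0 := by
  rcases ht.1.eq_or_lt with h | h
  · rw [← h, zero_smul]
    exact F_zero_neg_s H hu
  · rcases lt_trichotomy (F (t • θ)) 0 with h1 | h1 | h1
    · exact h1
    · exact absurd (ray_pos_of_zero_s H hu hθ ⟨h, ht.2⟩ h1) (not_lt.2 h0)
    · exact absurd (ray_of_pos_s H hu hθ ⟨h, ht.2⟩ h1) (not_lt.2 h0)

theorem radial_s (H : HypR F) (hu : ∀ y ∈ inn F, 0 < uu F y) {y : E} (hy : y ∈ surf F) {t : ℝ}
    (ht : t ∈ Icc (0 : ℝ) 1) (hty : t • y ∈ surf F) : t = 1 := by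
  have hF0 := F_zero_neg_s H hu
  have hy0 : y ≠ 0 := by
    rintro rfl
    rw [hy.2] at hF0
    exact lt_irrefl _ hF0
  have ht0 : t ≠ 0 := by
    rintro rfl
    have h1 := hty.2
    rw [zero_smul] at h1
    rw [h1] at hF0
    exact lt_irrefl _ hF0
  by_contra hne
  have htp : 0 < t := lt_of_le_of_ne ht.1 (Ne.symm ht0)
  have htl : t < 1 := lt_of_le_of_ne ht.2 hne
  have hr : 0 < ‖y‖ := norm_pos_iff.2 hy0
  have e1 : (t * ‖y‖) • (‖y‖⁻¹ • y) = t • y := by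
    rw [mul_smul, ry_back hy0]
  have h1 : F ((t * ‖y‖) • (‖y‖⁻¹ • y)) = 0 := by rw [e1]; exact hty.2
  have h2 : t * ‖y‖ ∈ Ioo (0 : ℝ) 1 := by
    refine ⟨mul_pos htp hr, ?_⟩
    have h3 := hy.1
    nlinarith
  have h3 : F (‖y‖ • (‖y‖⁻¹ • y)) = 0 := by rw [ry_back hy0]; exact hy.2
  have h4 := ray_pos_of_zero_s H hu (ry_norm hy0) h2 h1
  have h5 : ‖y‖ ≠ 1 := by
    intro h
    rw [h, one_smul] at h3
    rw [h] at h4
    rw [h3] at h4
    exact lt_irrefl _ h4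
  have h6 := ray_unique_s H hu (ry_norm hy0) ⟨hr, lt_of_le_of_ne hy.1 h5⟩ h2 h3 h1
  exact hne (by
    have h7 : t * ‖y‖ = 1 * ‖y‖ := by rw [one_mul]; exact h6.symm
    exact mul_right_cancel₀ hr.ne' h7)

end Pool.Agent.Helper78.FB
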