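import Pool.Agent.Helper94.FS.KapNeS
import Pool.Agent.Helper94.FS.LimS
import Pool.Agent.Helper94.FB.INeg
import Pool.Agent.Helper94.FB.SignNear

/-!
# FS-06 SignUS: the support function is nonnegative (no symmetry is assumed)

`u = uu F`, `G_n^(α, β) = gfun α β (1 / (n + 1))`. `ε` from `sign_near`; suppose `u b < 0` for some `b ∈ surf F`; there is `b' ∈ inn F ∩ ball p ε` (`bdry_subset`), `u b' > 0`. `Ip = area (normA max u 0) > 0`, `Im = area (normA max (-u) 0) > 0` (`i_pos`, `i_neg`).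
* `lim_form`: for `α β : ℝ`, `c : Fin 3 → ℝ` let `f_n = G_n^(α, β)(u) + ∑ m, c m * pd m F`. For every `i : Fin 4` the sequence `Q f_n (zz i)` converges to
  `Lf i α β c`: `i = 0`: `-(α Ip - β Im) + ∑ m, c m * Q (pd m F) 1`; `i = j + 1`: `-(α area (normA * (y_j * max u 0)) - β area (normA * (y_j * max (-u) 0))) + ∑ m, c m * Q (pd m F) (y_j)` (`lim_QG1`, `lim_QGi`, bilinearity), a linear form in `(α, β, c)`. And
  `Q f_n f_n → - 2 area ((∑ m, c m * pd m F) ^ 2)` (`lim_QGG`, `QG_pd`, `Q_normal`, `Q_line` with `t = 1`). It is enough to prove what is needed below, no separate statement is required.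
* The four linear forms `Lf i` on `ℝ^5` have a common zero `(α, β, c) ≠ 0` (dimension: `LinearMap.exists_ne_zero...`, `LinearMap.ker_ne_bot_of_finrank_lt`, or `Matrix.exists_mulVec_eq_zero_iff` for a square matrix with a zero row, or
  `exists_ne_zero_of_card_lt`).
* Step 1. `Q_lower` for `f_n` and `n → ∞`: `0 ≤ - 2 area ((∑ c m pd m F) ^ 2)`, so `∑ c m pd m F = 0` on `surf F` (`area_pos`) and `c = 0` by `normal_dir` and `hn`.
* Step 2. So `(α, β) ≠ 0`; the form `i = 0` says `α Ip = β Im`, so `α = τ Im`, `β = τ Ip` with `τ ≠ 0`. By linearity all four forms vanish at `(Im, Ip, 0)`: from now on `α = Im`, `β = Ip`, `c = 0`.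
* Step 3. `om` = a smooth function `≥ 0` with `om p > 0`, `tsupport om ⊆ ball p ε` (`ContDiffBump`). For `y ∈ surf F ∩ tsupport om`: `u y ≥ 0` (`> 0` on `inn F` by `sign_near`, `= 0` on `bdry F` by `orth`). As in `FB/SignU.lean`: `Q u om = len (kap * om) < 0` and
  `Q (G_n u) om = α Q u om` (`QG_supp`). For `t > 0`, `g_n = G_n u + t om`: `Q g_n (zz i) → t Q om (zz i)`, `Q g_n g_n → 2 t α Q u om + t ^ 2 Q om om`. `Q_lower`: `- C t ^ 2 ∑ Q om (zz i) ^ 2 ≤ 2 t α Q u om + t ^ 2 Q om om` for all `t > 0`; for small `t` this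
  contradicts `α Q u om < 0`.
-/

set_option autoImplicit false

open MeasureTheory Filter
open scoped ContDiff Topology

namespace Pool.Agent.Helper78.FB

variable {F : E → ℝ}

private theorem ss_QN (h : FBMS F) (c : Fin 3 → ℝ) {w : E → ℝ} (hw : ContDiff ℝ ∞ w) :
    Q F (fun y => ∑ m, c m * pd m F y) w = ∑ m, c m * Q F (pd m F) w := by
  have hp : ∀ m, ContDiff ℝ ∞ (pd m F) := fun m => contDiff_pd m h.smooth
  have e : (fun y => ∑ m, c m * pd m F y) =
      fun y => (c 0 * pd 0 F y + c 1 * pd 1 F y) + c 2 * pd 2 F y := by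
    funext y
    rw [Fin.sum_univ_three]
  have h0 : ∀ m, ContDiff ℝ ∞ fun y => c m * pd m F y := fun m => contDiff_const.mul (hp m)
  rw [e, Q_add_left h ((h0 0).add (h0 1)) (h0 2) hw, Q_add_left h (h0 0) (h0 1) hw,
    Q_const_mul_left h _ (hp 0) hw, Q_const_mul_left h _ (hp 1) hw,
    Q_const_mul_left h _ (hp 2) hw, Fin.sum_univ_three]

private theorem ss_lim (h : FBMS F) : ∃ A B : Fin 4 → ℝ,
    A 0 = area F (fun y => normA F y * max (uu F y) 0) ∧
    B 0 = area F (fun y => normA F y * max (-uu F y) 0) ∧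
    ∀ (α β : ℝ) (i : Fin 4),
      Tendsto (fun n : ℕ => Q F (fun y => gfun α β (1 / ((n : ℝ) + 1)) (uu F y)) (zz i)) atTop
        (𝓝 (-(α * A i - β * B i))) := by
  refine ⟨![area F (fun y => normA F y * max (uu F y) 0),
    area F (fun y => normA F y * (y 0 * max (uu F y) 0)),
    area F (fun y => normA F y * (y 1 * max (uu F y) 0)),
    area F (fun y => normA F y * (y 2 * max (uu F y) 0))],
    ![area F (fun y => normA F y * max (-uu F y) 0),
    area F (fun y => normA F y * (y 0 * max (-uu F y) 0)),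
    area F (fun y => normA F y * (y 1 * max (-uu F y) 0)),
    area F (fun y => normA F y * (y 2 * max (-uu F y) 0))], rfl, rfl, ?_⟩
  intro α β i
  fin_cases i
  · exact lim_QG1 h α β
  · exact lim_QGi h α β 0
  · exact lim_QGi h α β 1
  · exact lim_QGi h α β 2

private theorem ss_ineq (h : FBMS F) {C : ℝ}
    (hC : ∀ f : E → ℝ, ContDiff ℝ ∞ f → -C * ∑ i, Q F f (zz i) ^ 2 ≤ Q F f f) {α β : ℝ}
    {L : Fin 4 → ℝ} (hL : ∀ i : Fin 4,
      Tendsto (fun n : ℕ => Q F (fun y => gfun α β (1 / ((n : ℝ) + 1)) (uu F y)) (zz i)) atTop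
        (𝓝 (L i))) {w : E → ℝ} (hw : ContDiff ℝ ∞ w) (t q : ℝ)
    (hq : ∀ n : ℕ, Q F (fun y => gfun α β (1 / ((n : ℝ) + 1)) (uu F y)) w = q) :
    -C * ∑ i, (L i + t * Q F w (zz i)) ^ 2 ≤ 2 * t * q + t ^ 2 * Q F w w := by
  have hsm : ∀ n : ℕ, ContDiff ℝ ∞ (fun y => gfun α β (1 / ((n : ℝ) + 1)) (uu F y)) := fun n =>
    (contDiff_gfun α β _).comp (contDiff_uu h.smooth)
  have htw : ContDiff ℝ ∞ (fun y => t * w y) := contDiff_const.mul hw
  have h1 : ∀ n : ℕ, -C * ∑ i, (Q F (fun y => gfun α β (1 / ((n : ℝ) + 1)) (uu F y)) (zz i) +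
      t * Q F w (zz i)) ^ 2 ≤ Q F (fun y => gfun α β (1 / ((n : ℝ) + 1)) (uu F y))
        (fun y => gfun α β (1 / ((n : ℝ) + 1)) (uu F y)) + (2 * t * q + t ^ 2 * Q F w w) := by
    intro n
    have h2 := hC (fun y => gfun α β (1 / ((n : ℝ) + 1)) (uu F y) + t * w y) ((hsm n).add htw)
    rw [Q_line h t (hsm n) hw, hq n] at h2
    have h3 : ∀ i : Fin 4, Q F (fun y => gfun α β (1 / ((n : ℝ) + 1)) (uu F y) + t * w y) (zz i) =
        Q F (fun y => gfun α β (1 / ((n : ℝ) + 1)) (uu F y)) (zz i) + t * Q F w (zz i) := by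
      intro i
      rw [Q_add_left h (hsm n) htw (contDiff_zz i), Q_const_mul_left h t hw (contDiff_zz i)]
    simp only [h3] at h2
    linarith
  have h4 : Tendsto (fun n : ℕ => -C * ∑ i, (Q F (fun y => gfun α β (1 / ((n : ℝ) + 1)) (uu F y))
      (zz i) + t * Q F w (zz i)) ^ 2) atTop (𝓝 (-C * ∑ i, (L i + t * Q F w (zz i)) ^ 2)) :=
    (tendsto_finsetSum _ fun i _ => ((hL i).add_const _).pow 2).const_mul _
  have h5 := (lim_QGG h α β).add_const (2 * t * q + t ^ 2 * Q F w w)
  have h6 := le_of_tendsto_of_tendsto' h4 h5 h1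
  rwa [zero_add] at h6

theorem sign_u_s (h : FBMS F) (hn : ∃ y ∈ surf F, normA F y ≠ 0) (hi : IndexLeFour F) {p : E} (hp : p ∈ bdry F)
    (hk : kap F p < 0) : ∀ y ∈ surf F, 0 ≤ uu F y := by
  have hF := h.smooth
  intro b hb
  by_contra hub
  have hub : uu F b < 0 := not_le.1 hub
  obtain ⟨ε, hε, hin, hbd⟩ := sign_near h hp hk
  obtain ⟨b', hb'i, hb'd⟩ := Metric.mem_closure_iff.1 (bdry_subset h hp) ε hε
  have hub' : 0 < uu F b' := hin b' hb'i (by rw [Metric.mem_ball, dist_comm]; exact hb'd)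
  have hb' : b' ∈ surf F := ⟨le_of_lt hb'i.1, hb'i.2⟩
  have hIm := i_neg h hb hub
  have hIp := i_pos h hb' hub'
  obtain ⟨A, B, hA0, hB0, hlim⟩ := ss_lim h
  rw [← hA0] at hIp
  rw [← hB0] at hIm
  obtain ⟨C, -, hC⟩ := Q_lower h hn hi
  -- the linear system
  obtain ⟨α, β, c, hne, hsys⟩ : ∃ (α β : ℝ) (c : Fin 3 → ℝ), (c = 0 → α ≠ 0 ∨ β ≠ 0) ∧
      ∀ i : Fin 4, -(α * A i - β * B i) + ∑ m, c m * Q F (pd m F) (zz i) = 0 := by
    let M : Matrix (Fin 4) (Fin 5) ℝ := Matrix.of fun i =>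
      ![-A i, B i, Q F (pd 0 F) (zz i), Q F (pd 1 F) (zz i), Q F (pd 2 F) (zz i)]
    have hker : LinearMap.ker (Matrix.mulVecLin M) ≠ ⊥ := by
      apply LinearMap.ker_ne_bot_of_finrank_lt
      simp
    obtain ⟨x, hx, hx0⟩ := Submodule.exists_mem_ne_zero_of_ne_bot hker
    refine ⟨x 0, x 1, ![x 2, x 3, x 4], ?_, ?_⟩
    · intro hc
      by_contra hcon
      push Not at hcon
      apply hx0
      have h2 : x 2 = 0 := congrFun hc 0
      have h3 : x 3 = 0 := congrFun hc 1
      have h4 : x 4 = 0 := congrFun hc 2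
      funext j
      fin_cases j
      · exact hcon.1
      · exact hcon.2
      · exact h2
      · exact h3
      · exact h4
    · intro i
      have h1 : M.mulVec x i = 0 := congrFun (LinearMap.mem_ker.1 hx) i
      have h2 : M.mulVec x i = -A i * x 0 + B i * x 1 + Q F (pd 0 F) (zz i) * x 2 +
          Q F (pd 1 F) (zz i) * x 3 + Q F (pd 2 F) (zz i) * x 4 := by
        rw [Matrix.mulVec, dotProduct, Fin.sum_univ_five]
        rfl
      rw [h2] at h1
      rw [Fin.sum_univ_three]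
      show -(x 0 * A i - x 1 * B i) + (x 2 * Q F (pd 0 F) (zz i) + x 3 * Q F (pd 1 F) (zz i) +
        x 4 * Q F (pd 2 F) (zz i)) = 0
      linarith
  -- step 1
  have hNs : ContDiff ℝ ∞ (fun y => ∑ m, c m * pd m F y) :=
    ContDiff.sum fun m _ => contDiff_const.mul (contDiff_pd m hF)
  have hc : c = 0 := by
    by_contra hc
    have h1 := ss_ineq h hC (fun i => hlim α β i) hNs 1 0 (fun n => by
      rw [Q_comm, ss_QN h c (w := fun y => gfun α β (1 / ((n : ℝ) + 1)) (uu F y))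
        ((contDiff_gfun α β _).comp (contDiff_uu hF))]
      refine Finset.sum_eq_zero fun m _ => ?_
      rw [Q_comm, QG_pd h, mul_zero])
    have h2 : ∀ i : Fin 4, -(α * A i - β * B i) +
        1 * Q F (fun y => ∑ m, c m * pd m F y) (zz i) = 0 := by
      intro i
      rw [one_mul, ss_QN h c (contDiff_zz i)]
      exact hsys i
    simp only [h2] at h1
    rw [Q_normal h c] at h1
    have h3 : area F (fun y => (∑ m, c m * pd m F y) ^ 2) ≤ 0 := by
      simp only [ne_eq, OfNat.ofNat_ne_zero, not_false_eq_true, zero_pow, Finset.sum_const_zero,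
        mul_zero] at h1
      linarith
    have h4 : ∀ y ∈ surf F, ∑ m, c m * pd m F y = 0 := by
      intro y hy
      by_contra hne'
      have h5 : 0 < area F (fun y => (∑ m, c m * pd m F y) ^ 2) :=
        area_pos h (hNs.continuous.pow 2).continuousOn (fun z _ => sq_nonneg _) hy
          (lt_of_le_of_ne (sq_nonneg _) (Ne.symm (pow_ne_zero 2 hne')))
      exact absurd h5 (not_lt.2 h3)
    obtain ⟨y, hy, hy'⟩ := hn
    exact hy' (normal_dir h hc h4 y hy)
  -- step 2
  have hpair : ∀ i : Fin 4, α * A i = β * B i := by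
    intro i
    have h1 := hsys i
    rw [hc] at h1
    simp only [Pi.zero_apply, zero_mul, Finset.sum_const_zero, add_zero] at h1
    linarith
  have hα : α ≠ 0 := by
    intro hα
    have h1 := hpair 0
    rw [hα, zero_mul] at h1
    have h2 : β = 0 := (mul_eq_zero.1 h1.symm).resolve_right hIm.ne'
    rcases hne hc with h3 | h3
    · exact h3 hα
    · exact h3 h2
  have hprop : ∀ i : Fin 4, -(B 0 * A i - A 0 * B i) = 0 := by
    intro i
    apply mul_left_cancel₀ hα
    linear_combination -(B 0) * hpair i + B i * hpair 0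
  -- step 3
  obtain ⟨om, hom, hon, hop, hos⟩ : ∃ om : E → ℝ, ContDiff ℝ ∞ om ∧ (∀ y, 0 ≤ om y) ∧
      0 < om p ∧ ∀ y ∈ tsupport om, y ∈ Metric.ball p ε := by
    let φ : ContDiffBump p := ⟨ε / 4, ε / 2, by linarith, by linarith⟩
    refine ⟨φ, φ.contDiff, fun y => φ.nonneg, ?_, ?_⟩
    · exact φ.pos_of_mem_ball (Metric.mem_ball_self (by show (0 : ℝ) < ε / 2; linarith))
    · intro y hy
      rw [φ.tsupport_eq] at hy
      exact Metric.closedBall_subset_ball (by show ε / 2 < ε; linarith) hy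
  have hsu : ∀ y ∈ surf F, y ∈ tsupport om → 0 ≤ uu F y := by
    intro y hy hys
    rcases lt_or_eq_of_le hy.1 with h4 | h4
    · exact (hin y ⟨h4, hy.2⟩ (hos y hys)).le
    · exact (orth h ⟨h4, hy.2⟩).ge
  have hs : Q F (uu F) om < 0 := by
    rw [Q_uu h hom]
    have h1 : 0 < len F (fun y => -1 * (kap F y * om y)) := by
      refine len_pos h (continuous_const.mul
        ((contDiff_kap hF).continuous.mul hom.continuous)).continuousOn ?_ hp ?_
      · intro y hy
        by_cases hys : y ∈ tsupport om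
        · have h2 := hbd y hy (hos y hys)
          have h3 := mul_nonneg (neg_nonneg.2 h2.le) (hon y)
          linarith
        · rw [image_eq_zero_of_notMem_tsupport hys]
          simp
      · have h3 := mul_pos (neg_pos.2 hk) hop
        linarith
    rw [len_const_mul] at h1
    linarith
  have hpn : ∀ n : ℕ, (0 : ℝ) < 1 / ((n : ℝ) + 1) := fun n => by positivity
  have hineq : ∀ t : ℝ, -C * ∑ i, (t * Q F om (zz i)) ^ 2 ≤
      2 * t * (B 0 * Q F (uu F) om) + t ^ 2 * Q F om om := by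
    intro t
    have h1 := ss_ineq h hC (fun i => hlim (B 0) (A 0) i) hom t (B 0 * Q F (uu F) om)
      (fun n => QG_supp h (B 0) (A 0) (hpn n) hom hsu)
    simp only [hprop, zero_add] at h1
    exact h1
  have hαs : B 0 * Q F (uu F) om < 0 := mul_neg_of_pos_of_neg hIm hs
  obtain ⟨r, hr⟩ : ∃ r, r = B 0 * Q F (uu F) om := ⟨_, rfl⟩
  rw [← hr] at hαs
  obtain ⟨D, hD⟩ : ∃ D, D = -C * ∑ i, Q F om (zz i) ^ 2 - Q F om om := ⟨_, rfl⟩
  have hD1 : 0 < |D| + 1 := by positivity
  obtain ⟨t, ht⟩ : ∃ t, t = -r / (|D| + 1) := ⟨_, rfl⟩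
  have ht0 : 0 < t := by
    rw [ht]
    exact div_pos (by linarith) hD1
  have h1 := hineq t
  rw [← hr] at h1
  have h2 : t * D ≤ 2 * r := by
    have h3 : t * (t * D) ≤ t * (2 * r) := by
      have h4 : t * (t * D) = -C * ∑ i, (t * Q F om (zz i)) ^ 2 - t ^ 2 * Q F om om := by
        rw [hD]
        simp only [mul_pow, ← Finset.mul_sum]
        ring
      rw [h4]
      linarith
    exact le_of_mul_le_mul_left h3 ht0
  have h3 : t * (|D| + 1) = -r := by
    rw [ht]
    exact div_mul_cancel₀ _ hD1.ne'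
  have h4 : -(t * |D|) ≤ t * D := by
    have h5 := mul_le_mul_of_nonneg_left (neg_abs_le D) ht0.le
    linarith
  nlinarith

end Pool.Agent.Helper78.FB
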