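import Pool.Agent.Helper94.FS.UPosS
import Pool.Agent.Helper94.FS.RaysS
import Pool.Agent.Helper94.FS.NegS

/-!
# FS-09 Star: a free boundary minimal surface of index at most four is star-shaped
-/

set_option autoImplicit false

open MeasureTheory Filter Set
open scoped ContDiff Topology

namespace Pool.Agent.Helper78.FB

variable {F : E → ℝ}

private theorem inn_ne (h : FBMS F) (hn : ∃ y ∈ surf F, normA F y ≠ 0) : (inn F).Nonempty := by
  obtain ⟨y, hy, -⟩ := hn
  have h1 := surf_subset h hy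
  exact closure_nonempty_iff.1 ⟨y, h1⟩

/-- Up to the sign of `F` the support function is positive in the interior. -/
theorem exists_sign (h : FBMS F) (hconn : IsPreconnected (inn F)) (hn : ∃ y ∈ surf F, normA F y ≠ 0)
    (hi : IndexLeFour F) : (∀ y ∈ inn F, 0 < uu F y) ∨ (∀ y ∈ inn F, uu F y < 0) := by
  obtain ⟨p, hp, hk⟩ := kap_ne_s h hn hi
  rcases lt_or_gt_of_ne hk with hk | hk
  · exact Or.inl (u_pos_s h hconn hn hi hp hk)
  · right
    obtain ⟨y, hy, hy1⟩ := hn
    have h2 := u_pos_s (F := fun y => -F y) (fbms_neg h) (by rw [inn_neg]; exact hconn)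
      ⟨y, by rw [surf_neg]; exact hy, by rw [normA_neg_s h.smooth]; exact hy1⟩ (index_neg h.smooth hi)
      (p := p) (by rw [bdry_neg]; exact hp) (by rw [kap_neg h.smooth]; linarith)
    intro z hz
    have h3 := h2 z (by rw [inn_neg]; exact hz)
    rw [uu_neg_s h.smooth] at h3
    linarith

theorem radial_of_index (h : FBMS F) (hconn : IsPreconnected (inn F)) (hn : ∃ y ∈ surf F, normA F y ≠ 0)
    (hi : IndexLeFour F) {y : E} (hy : y ∈ surf F) {t : ℝ} (ht : t ∈ Icc (0 : ℝ) 1) (hty : t • y ∈ surf F) :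
    t = 1 := by
  rcases exists_sign h hconn hn hi with hu | hu
  · exact radial_s ⟨h, inn_ne h hn⟩ hu hy ht hty
  · refine radial_s (F := fun y => -F y) ⟨fbms_neg h, by rw [inn_neg]; exact inn_ne h hn⟩ ?_
      (by rw [surf_neg]; exact hy) ht (by rw [surf_neg]; exact hty)
    intro z hz
    rw [inn_neg] at hz
    rw [uu_neg_s h.smooth]
    have h3 := hu z hz
    linarith

theorem ne_zero_of_index (h : FBMS F) (hconn : IsPreconnected (inn F)) (hn : ∃ y ∈ surf F, normA F y ≠ 0)
    (hi : IndexLeFour F) {y : E} (hy : y ∈ surf F) : y ≠ 0 := by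
  intro h0
  have h1 := radial_of_index h hconn hn hi hy (t := 0) ⟨le_rfl, zero_le_one⟩ (by rw [zero_smul, ← h0]; exact hy)
  exact zero_ne_one h1

/-- The radial projection embeds the surface in the unit sphere. -/
theorem embedding_of_index (h : FBMS F) (hconn : IsPreconnected (inn F)) (hn : ∃ y ∈ surf F, normA F y ≠ 0)
    (hi : IndexLeFour F) : Topology.IsClosedEmbedding (fun y : surf F => ‖(y : E)‖⁻¹ • (y : E)) := by
  have : CompactSpace (surf F) := isCompact_iff_compactSpace.1 (isCompact_surf h)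
  have hne : ∀ y : surf F, (y : E) ≠ 0 := fun y => ne_zero_of_index h hconn hn hi y.2
  have hc : Continuous (fun y : surf F => ‖(y : E)‖⁻¹ • (y : E)) :=
    (continuous_subtype_val.norm.inv₀ fun y => norm_ne_zero_iff.2 (hne y)).smul continuous_subtype_val
  refine hc.isClosedEmbedding fun y z hyz => ?_
  have key : ∀ y z : surf F, ‖(y : E)‖⁻¹ • (y : E) = ‖(z : E)‖⁻¹ • (z : E) → ‖(y : E)‖ ≤ ‖(z : E)‖ → y = z := by
    intro y z hyz hle
    have hy0 : 0 < ‖(y : E)‖ := norm_pos_iff.2 (hne y)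
    have hz0 : 0 < ‖(z : E)‖ := norm_pos_iff.2 (hne z)
    have h1 : (y : E) = (‖(y : E)‖ / ‖(z : E)‖) • (z : E) := by
      calc (y : E) = ‖(y : E)‖ • (‖(y : E)‖⁻¹ • (y : E)) := by
            rw [smul_smul, mul_inv_cancel₀ hy0.ne', one_smul]
        _ = ‖(y : E)‖ • (‖(z : E)‖⁻¹ • (z : E)) := by rw [hyz]
        _ = (‖(y : E)‖ / ‖(z : E)‖) • (z : E) := by rw [smul_smul, div_eq_mul_inv]
    have h3 : ‖(y : E)‖ / ‖(z : E)‖ = 1 :=
      radial_of_index h hconn hn hi z.2 ⟨div_nonneg hy0.le hz0.le, (div_le_one hz0).2 hle⟩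
        (by rw [← h1]; exact y.2)
    rw [h3, one_smul] at h1
    exact Subtype.ext h1
  rcases le_total ‖(y : E)‖ ‖(z : E)‖ with hle | hle
  · exact key y z hyz hle
  · exact (key z y hyz.symm hle).symm

end Pool.Agent.Helper78.FB
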